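import Pool.Agent.Helper60.UC.Defs

set_option autoImplicit false
noncomputable section
open Set Filter Topology

namespace Pool.Helper60.UC

variable (S : Sys)

/-! ### averages -/

variable {S}

lemma av_congr {j : ℕ} {x y : ℕ → ℝ} (h : ∀ i ∈ S.ch j, x i = y i) : av S j x = av S j y := by
  unfold av; rw [Finset.sum_congr rfl h]

lemma av_sub (j : ℕ) (x y : ℕ → ℝ) : av S j (fun i => x i - y i) = av S j x - av S j y := by
  unfold av; rw [Finset.sum_sub_distrib, sub_div]

lemma av_add (j : ℕ) (x y : ℕ → ℝ) : av S j (fun i => x i + y i) = av S j x + av S j y := by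
  unfold av; rw [Finset.sum_add_distrib, add_div]

lemma av_smul (j : ℕ) (c : ℝ) (x : ℕ → ℝ) : av S j (fun i => c * x i) = c * av S j x := by
  unfold av; rw [← Finset.mul_sum, mul_div_assoc]

lemma av_mono {j : ℕ} {x y : ℕ → ℝ} (h : ∀ i ∈ S.ch j, x i ≤ y i) : av S j x ≤ av S j y := by
  unfold av
  exact div_le_div_of_nonneg_right (Finset.sum_le_sum h) (Nat.cast_nonneg _)

lemma av_nonneg {j : ℕ} {x : ℕ → ℝ} (h : ∀ i ∈ S.ch j, 0 ≤ x i) : 0 ≤ av S j x := by
  unfold av
  exact div_nonneg (Finset.sum_nonneg h) (Nat.cast_nonneg _)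

lemma av_leaf {j : ℕ} (h : S.ch j = ∅) (x : ℕ → ℝ) : av S j x = 0 := by
  simp [av, h]

lemma av_const {j : ℕ} (h : (S.ch j).Nonempty) (c : ℝ) : av S j (fun _ => c) = c := by
  unfold av
  have : ((S.ch j).card : ℝ) ≠ 0 := by
    exact_mod_cast Finset.card_ne_zero.mpr h
  rw [Finset.sum_const, nsmul_eq_mul]
  field_simp

lemma av_le {j : ℕ} {x : ℕ → ℝ} {c : ℝ} (hc : 0 ≤ c) (h : ∀ i ∈ S.ch j, x i ≤ c) :
    av S j x ≤ c := by
  rcases (S.ch j).eq_empty_or_nonempty with h0 | h0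
  · rw [av_leaf h0]; exact hc
  · calc av S j x ≤ av S j (fun _ => c) := av_mono h
      _ = c := av_const h0 c

lemma abs_av_le (j : ℕ) (x : ℕ → ℝ) : |av S j x| ≤ av S j (fun i => |x i|) := by
  unfold av
  rw [abs_div, Nat.abs_cast]
  exact div_le_div_of_nonneg_right (Finset.abs_sum_le_sum_abs _ _) (Nat.cast_nonneg _)

lemma abs_av_le_of {j : ℕ} {x : ℕ → ℝ} {c : ℝ} (hc : 0 ≤ c) (h : ∀ i ∈ S.ch j, |x i| ≤ c) :
    |av S j x| ≤ c := (abs_av_le j x).trans (av_le hc h)

lemma av_eq_zero {j : ℕ} {x : ℕ → ℝ} (h : ∀ i ∈ S.ch j, x i = 0) : av S j x = 0 := by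
  unfold av; rw [Finset.sum_eq_zero h, zero_div]

/-! ### positions -/

lemma lo_le (j : ℕ) : S.lo j ≤ j := by
  induction j using Nat.strong_induction_on with
  | _ j ih =>
    rcases (S.ch j).eq_empty_or_nonempty with h | ⟨i, hi⟩
    · exact (S.lo_leaf h).le
    · exact (S.lo_ch hi).trans ((ih i (S.ch_lt hi)).trans (S.ch_lt hi).le)

/-! ### the projections -/

lemma P_eq (n : ℕ) (x : ℕ → ℝ) (j : ℕ) :
    P S n x j = if j < n then x j else av S j (P S n x) := by
  rw [P]
  split_ifs with h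
  · rfl
  · unfold av
    rw [Finset.sum_attach (S.ch j) (fun i => P S n x i)]

lemma P_lt {n j : ℕ} (h : j < n) (x : ℕ → ℝ) : P S n x j = x j := by
  rw [P_eq, if_pos h]

lemma P_ge {n j : ℕ} (h : n ≤ j) (x : ℕ → ℝ) : P S n x j = av S j (P S n x) := by
  rw [P_eq, if_neg (not_lt.mpr h)]

lemma P_bd {n : ℕ} {x : ℕ → ℝ} {r : ℝ} (hr : 0 ≤ r) (hx : ∀ j < n, |x j| ≤ r) :
    Bd r (P S n x) := by
  intro j
  induction j using Nat.strong_induction_on with
  | _ j ih =>
    by_cases h : j < n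
    · rw [P_lt h]; exact hx j h
    · rw [P_ge (not_lt.mp h)]
      exact abs_av_le_of hr (fun i hi => ih i (S.ch_lt hi))

lemma P_zero {n k : ℕ} (h : n ≤ S.lo k) (x : ℕ → ℝ) : P S n x k = 0 := by
  induction k using Nat.strong_induction_on with
  | _ k ih =>
    rw [P_ge (h.trans (lo_le k))]
    exact av_eq_zero (fun i hi => ih i (S.ch_lt hi) (h.trans (S.lo_ch hi)))

lemma P_congr {n : ℕ} {x y : ℕ → ℝ} (h : ∀ j < n, x j = y j) : P S n x = P S n y := by
  funext j
  induction j using Nat.strong_induction_on with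
  | _ j ih =>
    by_cases hj : j < n
    · rw [P_lt hj, P_lt hj, h j hj]
    · rw [P_ge (not_lt.mp hj), P_ge (not_lt.mp hj)]
      exact av_congr (fun i hi => ih i (S.ch_lt hi))

lemma P_sub (n : ℕ) (x y : ℕ → ℝ) : P S n (fun i => x i - y i) = fun i => P S n x i - P S n y i := by
  funext j
  induction j using Nat.strong_induction_on with
  | _ j ih =>
    by_cases hj : j < n
    · rw [P_lt hj, P_lt hj, P_lt hj]
    · rw [P_ge (not_lt.mp hj), P_ge (not_lt.mp hj), P_ge (not_lt.mp hj), ← av_sub]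
      exact av_congr (fun i hi => ih i (S.ch_lt hi))

lemma P_add (n : ℕ) (x y : ℕ → ℝ) : P S n (fun i => x i + y i) = fun i => P S n x i + P S n y i := by
  funext j
  induction j using Nat.strong_induction_on with
  | _ j ih =>
    by_cases hj : j < n
    · rw [P_lt hj, P_lt hj, P_lt hj]
    · rw [P_ge (not_lt.mp hj), P_ge (not_lt.mp hj), P_ge (not_lt.mp hj), ← av_add]
      exact av_congr (fun i hi => ih i (S.ch_lt hi))

lemma P_smul (n : ℕ) (c : ℝ) (x : ℕ → ℝ) : P S n (fun i => c * x i) = fun i => c * P S n x i := by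
  funext j
  induction j using Nat.strong_induction_on with
  | _ j ih =>
    by_cases hj : j < n
    · rw [P_lt hj, P_lt hj]
    · rw [P_ge (not_lt.mp hj), P_ge (not_lt.mp hj), ← av_smul]
      exact av_congr (fun i hi => ih i (S.ch_lt hi))

/-- `z` is harmonic beyond `k` iff it is fixed by `P n` for `n ≥ k` -/
lemma P_fix {k n : ℕ} (hkn : k ≤ n) {z : ℕ → ℝ} (hz : ∀ j, k ≤ j → z j = av S j z) :
    P S n z = z := by
  funext j
  induction j using Nat.strong_induction_on with
  | _ j ih =>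
    by_cases hj : j < n
    · rw [P_lt hj]
    · rw [P_ge (not_lt.mp hj), hz j (hkn.trans (not_lt.mp hj))]
      exact av_congr (fun i hi => ih i (S.ch_lt hi))

lemma P_P {k n : ℕ} (hkn : k ≤ n) (x : ℕ → ℝ) : P S n (P S k x) = P S k x :=
  P_fix hkn (fun _ hj => P_ge hj x)

/-! ### the tail norm -/

lemma T_bddAbove {x : ℕ → ℝ} {r : ℝ} (hx : Bd r x) (j : ℕ) :
    BddAbove (range fun p : ℕ × ℕ => |x p.2 - P S (j + 1 + p.1) x p.2|) := by
  have hr : 0 ≤ r := (abs_nonneg _).trans (hx 0)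
  refine ⟨r + r, ?_⟩
  rintro _ ⟨p, rfl⟩
  exact (abs_sub _ _).trans (add_le_add (hx _) (P_bd hr (fun j _ => hx j) _))

lemma le_T {x : ℕ → ℝ} {r : ℝ} (hx : Bd r x) {j n : ℕ} (hn : j < n) (k : ℕ) :
    |x k - P S n x k| ≤ T S j x := by
  obtain ⟨m, rfl⟩ : ∃ m, n = j + 1 + m := ⟨n - (j + 1), by omega⟩
  exact le_ciSup (T_bddAbove hx j) (m, k)

lemma T_le {x : ℕ → ℝ} {j : ℕ} {c : ℝ} (h : ∀ n, j < n → ∀ k, |x k - P S n x k| ≤ c) :
    T S j x ≤ c := by
  apply ciSup_le
  intro p
  exact h _ (by omega) _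

lemma T_nonneg {x : ℕ → ℝ} {r : ℝ} (hx : Bd r x) (j : ℕ) : 0 ≤ T S j x :=
  (abs_nonneg _).trans (le_T hx (Nat.lt_succ_self j) 0)

lemma T_anti {x : ℕ → ℝ} {r : ℝ} (hx : Bd r x) {i j : ℕ} (h : i ≤ j) : T S j x ≤ T S i x :=
  T_le (fun _ hn k => le_T hx (h.trans_lt hn) k)

lemma T_le_two {x : ℕ → ℝ} {r : ℝ} (hx : Bd r x) (j : ℕ) : T S j x ≤ 2 * r := by
  have hr : 0 ≤ r := (abs_nonneg _).trans (hx 0)
  refine T_le (fun n _ k => ?_)
  calc _ ≤ |x k| + |P S n x k| := abs_sub _ _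
    _ ≤ r + r := add_le_add (hx _) (P_bd hr (fun j _ => hx j) _)
    _ = 2 * r := by ring

/-- the tail norm dominates the values at all states whose descendants are beyond `j` -/
lemma abs_le_T {x : ℕ → ℝ} {r : ℝ} (hx : Bd r x) {j k : ℕ} (h : j < S.lo k) : |x k| ≤ T S j x := by
  have := le_T (S := S) hx (Nat.lt_succ_self j) k
  rwa [P_zero h, sub_zero] at this

lemma T_add_le {x y : ℕ → ℝ} {r s : ℝ} (hx : Bd r x) (hy : Bd s y) (j : ℕ) :
    T S j (fun i => x i + y i) ≤ T S j x + T S j y := by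
  refine T_le (fun n hn k => ?_)
  rw [P_add]
  calc |x k + y k - (P S n x k + P S n y k)| = |(x k - P S n x k) + (y k - P S n y k)| := by
        ring_nf
    _ ≤ _ := (abs_add_le _ _).trans (add_le_add (le_T hx hn k) (le_T hy hn k))

lemma T_smul_le {x : ℕ → ℝ} {r : ℝ} (hx : Bd r x) (c : ℝ) (j : ℕ) :
    T S j (fun i => c * x i) ≤ |c| * T S j x := by
  refine T_le (fun n hn k => ?_)
  rw [P_smul]
  calc |c * x k - c * P S n x k| = |c| * |x k - P S n x k| := by
        rw [← mul_sub, abs_mul]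
    _ ≤ _ := mul_le_mul_of_nonneg_left (le_T hx hn k) (abs_nonneg _)

lemma T_diff {x x' : ℕ → ℝ} {r r' D : ℝ} (hx : Bd r x) (hx' : Bd r' x')
    (hD : Bd D (fun i => x i - x' i)) (j : ℕ) : |T S j x - T S j x'| ≤ 2 * D := by
  have key : ∀ {x x' : ℕ → ℝ} {r r' : ℝ}, Bd r x → Bd r' x' → Bd D (fun i => x i - x' i) →
      T S j x ≤ T S j x' + 2 * D := by
    intro x x' r r' hx hx' hD
    refine T_le (fun n hn k => ?_)
    have h1 := le_T (S := S) hx' hn k
    have h2 := le_T (S := S) hD hn k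
    have h3 := T_le_two (S := S) hD j
    rw [P_sub] at h2
    have : x k - P S n x k = (x' k - P S n x' k) + (x k - x' k - (P S n x k - P S n x' k)) := by
      ring
    rw [this]
    exact (abs_add_le _ _).trans (add_le_add h1 (h2.trans h3))
  have hD' : Bd D (fun i => x' i - x i) := fun i => by
    rw [abs_sub_comm]; exact hD i
  rw [abs_sub_le_iff]
  constructor
  · linarith [key hx hx' hD]
  · linarith [key hx' hx hD']

/-! ### descendants -/

lemma Des.lt {j k : ℕ} (h : Des S j k) : k < j := by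
  induction h with
  | single h => exact S.ch_lt h
  | tail _ h ih => exact (S.ch_lt h).trans ih

lemma Small.child {ρ : ℝ} {x : ℕ → ℝ} {j i : ℕ} (h : Small S ρ x j) (hi : i ∈ S.ch j) :
    |x i| ≤ ρ ∧ Small S ρ x i :=
  ⟨h i (Relation.TransGen.single hi), fun k hk => h k (Relation.TransGen.head hi hk)⟩

lemma Small.mono {ρ ρ' : ℝ} {x : ℕ → ℝ} {j : ℕ} (h : Small S ρ x j) (hρ : ρ ≤ ρ') :
    Small S ρ' x j := fun k hk => (h k hk).trans hρ

/-- if all descendants of `k` are beyond `i`, the tail norm at `i` controls them -/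
lemma small_of_lo {x : ℕ → ℝ} {r : ℝ} (hx : Bd r x) {i k : ℕ} (h : i < S.lo k) :
    Small S (T S i x) x k := by
  intro l hl
  refine abs_le_T hx (h.trans_le ?_)
  induction hl with
  | single h => exact S.lo_ch h
  | tail _ h ih => exact ih.trans (S.lo_ch h)

/-! ### the taut string -/

lemma str_eq (w : ℝ) (x : ℕ → ℝ) (j : ℕ) :
    str S w x j = max (x j - w) (min (x j + w) (av S j (str S w x))) := by
  rw [str]
  unfold av
  rw [Finset.sum_attach (S.ch j) (fun i => str S w x i)]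

lemma str_near {w : ℝ} (hw : 0 ≤ w) (x : ℕ → ℝ) (j : ℕ) : |x j - str S w x j| ≤ w := by
  rw [str_eq, abs_sub_le_iff]
  constructor
  · linarith [le_max_left (x j - w) (min (x j + w) (av S j (str S w x)))]
  · have : max (x j - w) (min (x j + w) (av S j (str S w x))) ≤ x j + w :=
      max_le (by linarith) (min_le_left _ _)
    linarith

lemma str_zero {w : ℝ} {x : ℕ → ℝ} {j : ℕ} (h : |x j| ≤ w) (hs : Small S w x j) :
    str S w x j = 0 := by
  induction j using Nat.strong_induction_on with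
  | _ j ih =>
    rw [str_eq, av_eq_zero (fun i hi => ih i (S.ch_lt hi) (hs.child hi).1 (hs.child hi).2)]
    have := abs_le.mp h
    rw [min_eq_right (by linarith), max_eq_right (by linarith)]

lemma str_le {w ρ : ℝ} (hw : 0 ≤ w) {x : ℕ → ℝ} {j : ℕ} (h : |x j| ≤ ρ) (hs : Small S ρ x j) :
    |str S w x j| ≤ ρ := by
  induction j using Nat.strong_induction_on with
  | _ j ih =>
    have hρ : 0 ≤ ρ := (abs_nonneg _).trans h
    have h1 : |av S j (str S w x)| ≤ ρ :=
      abs_av_le_of hρ (fun i hi => ih i (S.ch_lt hi) (hs.child hi).1 (hs.child hi).2)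
    rw [str_eq]
    have h2 := abs_le.mp h
    have h3 := abs_le.mp h1
    rw [abs_le]
    constructor
    · exact le_max_of_le_right (le_min (by linarith) h3.1)
    · exact max_le (by linarith) (min_le_of_right_le h3.2)

lemma str_lip {w w' D : ℝ} {x x' : ℕ → ℝ} (hD : Bd D (fun i => x i - x' i)) (j : ℕ) :
    |str S w x j - str S w' x' j| ≤ D + |w - w'| := by
  induction j using Nat.strong_induction_on with
  | _ j ih =>
    have hD0 : 0 ≤ D := (abs_nonneg _).trans (hD 0)
    have h0 : 0 ≤ D + |w - w'| := add_nonneg hD0 (abs_nonneg _)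
    have h1 : |av S j (str S w x) - av S j (str S w' x')| ≤ D + |w - w'| := by
      rw [← av_sub]
      exact abs_av_le_of h0 (fun i hi => ih i (S.ch_lt hi))
    have h2 : |x j - x' j| ≤ D := hD j
    rw [str_eq, str_eq]
    have a1 : |(x j - w) - (x' j - w')| ≤ D + |w - w'| := by
      have : (x j - w) - (x' j - w') = (x j - x' j) - (w - w') := by ring
      rw [this]
      exact (abs_sub _ _).trans (add_le_add h2 le_rfl)
    have a2 : |(x j + w) - (x' j + w')| ≤ D + |w - w'| := by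
      have : (x j + w) - (x' j + w') = (x j - x' j) + (w - w') := by ring
      rw [this]
      exact (abs_add_le _ _).trans (add_le_add h2 le_rfl)
    refine (abs_max_sub_max_le_max _ _ _ _).trans (max_le a1 ?_)
    exact (abs_min_sub_min_le_max _ _ _ _).trans (max_le a2 h1)

end Pool.Helper60.UC
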