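import Mathlib

/-!
Definitions for the counterexample to uniform rigidity of `c_0` (MP_fddf76_an).
-/

set_option autoImplicit false
noncomputable section
open Set Filter Topology

namespace Pool.Helper60.UC

/-- logarithm of the norm from which on the coordinate `n` is coded directly -/
def rho (n : ℕ) : ℕ := n + 2 ^ (n + 10)

/-- minimal number of children of a state whose first descendant is `n` -/
def G (n : ℕ) : ℕ := 4 * rho n

/-- A system of states: every state `j` has a finite set `ch j` of children, all `< j`;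
`lo j` is the first descendant (`j` itself for a leaf); the descendant intervals of the children
of one state are successive; the number of children is at least `G (lo j)`; and every admissible
finite set is the set of children of infinitely many states. -/
structure Sys where
  ch : ℕ → Finset ℕ
  lo : ℕ → ℕ
  ch_lt : ∀ {j i : ℕ}, i ∈ ch j → i < j
  lo_leaf : ∀ {j : ℕ}, ch j = ∅ → lo j = j
  lo_ch : ∀ {j i : ℕ}, i ∈ ch j → lo j ≤ lo i
  lo_att : ∀ {j : ℕ}, (ch j).Nonempty → ∃ i ∈ ch j, lo j = lo i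
  sep : ∀ {j i i' : ℕ}, i ∈ ch j → i' ∈ ch j → i < i' → i < lo i'
  big : ∀ {j : ℕ}, (ch j).Nonempty → G (lo j) ≤ (ch j).card
  rich : ∀ B : Finset ℕ, (∀ i ∈ B, ∀ i' ∈ B, i < i' → i < lo i') →
    (B = ∅ ∨ ∃ i ∈ B, (∀ i' ∈ B, lo i ≤ lo i') ∧ G (lo i) ≤ B.card) →
    ∀ p : ℕ, ∃ j, p < j ∧ ch j = B

/-- average over the children (`0` for a leaf) -/
def av (S : Sys) (j : ℕ) (x : ℕ → ℝ) : ℝ := (∑ i ∈ S.ch j, x i) / (S.ch j).card

/-- `P n x` agrees with `x` on `[0,n)` and is harmonic beyond `n` -/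
def P (S : Sys) (n : ℕ) (x : ℕ → ℝ) (j : ℕ) : ℝ :=
  if j < n then x j else (∑ i ∈ (S.ch j).attach, P S n x i.1) / (S.ch j).card
termination_by j
decreasing_by exact S.ch_lt i.2

/-- the taut string of width `w` -/
def str (S : Sys) (w : ℝ) (x : ℕ → ℝ) (j : ℕ) : ℝ :=
  max (x j - w) (min (x j + w) ((∑ i ∈ (S.ch j).attach, str S w x i.1) / (S.ch j).card))
termination_by j
decreasing_by exact S.ch_lt i.2

/-- tail norm beyond `j` -/
def T (S : Sys) (j : ℕ) (x : ℕ → ℝ) : ℝ := ⨆ p : ℕ × ℕ, |x p.2 - P S (j + 1 + p.1) x p.2|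

/-- leak probability at scale `t` -/
def eps (t : ℝ) : ℝ := (1 / 2 ^ 20) * (min 1 t) ^ (1 / 64 : ℝ)

/-- degree of direct coding of the coordinate `j` at norm `r` -/
def q (j : ℕ) (r : ℝ) : ℝ := max 0 (min 1 ((1 / 2 ^ (j + 10)) * (Real.logb 2 r - j)))

/-- `hh S j x = av_j (x - string of width 2 T_j x)` -/
def hh (S : Sys) (j : ℕ) (x : ℕ → ℝ) : ℝ := av S j (fun i => x i - str S (2 * T S j x) x i)

/-- the coding map with parameter `t`; `r` is the norm of `x` -/
def fm (S : Sys) (t r : ℝ) (x : ℕ → ℝ) (j : ℕ) : ℝ :=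
  x j - (1 - t * q j r) * (av S j x - t * eps (T S j x) * hh S j x)

/-- `x` is bounded by `r` -/
def Bd (r : ℝ) (x : ℕ → ℝ) : Prop := ∀ j, |x j| ≤ r

/-- strict descendants: `Des S j k` means that `k` is a strict descendant of `j` -/
def Des (S : Sys) (j k : ℕ) : Prop := Relation.TransGen (fun a b => b ∈ S.ch a) j k

/-- all strict descendants of `j` have absolute value at most `ρ` -/
def Small (S : Sys) (ρ : ℝ) (x : ℕ → ℝ) (j : ℕ) : Prop := ∀ k, Des S j k → |x k| ≤ ρ

/-- the scale of `x` at the state `j` at resolution `D` -/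
def sc (S : Sys) (D : ℝ) (x : ℕ → ℝ) (j : ℕ) : ℝ := max (T S j x) (D / 100)

/-- `j` is exceptional for `x` (a jump larger than the tail is possible) -/
def Lp (S : Sys) (D : ℝ) (x : ℕ → ℝ) (j : ℕ) : Prop := ¬ Small S (2 * sc S D x j) x j

/-- the larger of the leak probabilities of `x` and `x'` -/
def ee (S : Sys) (x x' : ℕ → ℝ) (j : ℕ) : ℝ := eps (max (T S j x) (T S j x'))

/-- tail variation `F` -/
def FF (t : ℝ) : ℝ := (1 / 2 ^ 20) * (514 + 512 * (1 - (min 1 t) ^ (1 / 64 : ℝ)))

/-- bound for the expected number of exceptional states -/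
def Wmax : ℝ := 2054 / 2 ^ 20

open Classical in
/-- the explicit supersolution -/
def W (S : Sys) (D r : ℝ) (x : ℕ → ℝ) (j : ℕ) : ℝ :=
  if (rho j : ℝ) ≤ Real.logb 2 r then 1 / 2 ^ 20
  else if (rho (S.lo j) : ℝ) ≤ Real.logb 2 r then Wmax
  else if Lp S D x j then FF (sc S D x j) else 0

/-- bounded functions on the states -/
abbrev Bs := BoundedContinuousFunction ℕ ℝ

end Pool.Helper60.UC
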