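import Pool.Agent.Helper60.UC.Super

set_option autoImplicit false
noncomputable section
open Set Filter Topology

namespace Pool.Helper60.UC

variable {S : Sys}

/-- the predicted value -/
def gg (S : Sys) (t : ℝ) (j : ℕ) (x : ℕ → ℝ) : ℝ := av S j x - t * eps (T S j x) * hh S j x

lemma fm_eq (t r : ℝ) (x : ℕ → ℝ) (j : ℕ) :
    fm S t r x j = x j - (1 - t * q j r) * gg S t j x := rfl

lemma hh_eq (j : ℕ) (x : ℕ → ℝ) :
    hh S j x = av S j x - av S j (str S (2 * T S j x) x) := by
  unfold hh; rw [av_sub]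

lemma gg_eq (t : ℝ) (j : ℕ) (x : ℕ → ℝ) :
    gg S t j x = (1 - t * eps (T S j x)) * av S j x +
      t * eps (T S j x) * av S j (str S (2 * T S j x) x) := by
  unfold gg; rw [hh_eq]; ring

lemma hh_bd {x : ℕ → ℝ} {r : ℝ} (hx : Bd r x) (j : ℕ) : |hh S j x| ≤ 2 * T S j x := by
  have hT := T_nonneg (S := S) hx j
  exact abs_av_le_of (by linarith) (fun i _ => str_near (by linarith) x i)

lemma te_le {t T : ℝ} (ht : t ∈ Icc (0 : ℝ) 1) (hT : 0 ≤ T) :
    0 ≤ t * eps T ∧ t * eps T ≤ 1 / 2 ^ 20 := by
  have h0 := eps_nonneg hT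
  have h1 := eps_le hT
  refine ⟨mul_nonneg ht.1 h0, ?_⟩
  calc t * eps T ≤ 1 * (1 / 2 ^ 20) := mul_le_mul ht.2 h1 h0 zero_le_one
    _ = _ := one_mul _

lemma gg_bd {x : ℕ → ℝ} {r t : ℝ} (hx : Bd r x) (ht : t ∈ Icc (0 : ℝ) 1) (j : ℕ) :
    |gg S t j x| ≤ r := by
  have hr : 0 ≤ r := (abs_nonneg _).trans (hx 0)
  have hT := T_nonneg (S := S) hx j
  obtain ⟨h0, h1⟩ := te_le ht hT
  have h2 : |av S j x| ≤ r := abs_av_le_of hr (fun i _ => hx i)
  have h3 : |av S j (str S (2 * T S j x) x)| ≤ r :=
    abs_av_le_of hr (fun i _ => str_le (by linarith) (hx i) (fun k _ => hx k))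
  rw [gg_eq]
  calc _ ≤ |(1 - t * eps (T S j x)) * av S j x| +
        |t * eps (T S j x) * av S j (str S (2 * T S j x) x)| := abs_add_le _ _
    _ = (1 - t * eps (T S j x)) * |av S j x| +
        t * eps (T S j x) * |av S j (str S (2 * T S j x) x)| := by
        rw [abs_mul, abs_mul, abs_of_nonneg h0,
          abs_of_nonneg (by linarith : 0 ≤ 1 - t * eps (T S j x))]
    _ ≤ (1 - t * eps (T S j x)) * r + t * eps (T S j x) * r :=
        add_le_add (mul_le_mul_of_nonneg_left h2 (by linarith)) (mul_le_mul_of_nonneg_left h3 h0)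
    _ = r := by ring

/-- below non exceptional states the string is negligible -/
lemma av_str_small {x : ℕ → ℝ} {r D : ℝ} (hx : Bd r x) (hD : 0 < D) {j : ℕ}
    (h : ¬ Lp S D x j) : |av S j (str S (2 * T S j x) x)| ≤ D / 50 := by
  have hT := T_nonneg (S := S) hx j
  unfold Lp at h
  push Not at h
  rcases le_total (D / 100) (T S j x) with h1 | h1
  · have hsc : sc S D x j = T S j x := max_eq_left h1
    rw [hsc] at h
    rw [av_eq_zero (fun i hi => str_zero (h.child hi).1 (h.child hi).2), abs_zero]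
    positivity
  · have hsc : sc S D x j = D / 100 := max_eq_right h1
    rw [hsc] at h
    have e : 2 * (D / 100) = D / 50 := by ring
    rw [e] at h
    exact abs_av_le_of (by positivity)
      (fun i hi => str_le (by linarith) (h.child hi).1 (h.child hi).2)

open Classical in
/-- indicator of exceptional states -/
def ind (S : Sys) (D : ℝ) (x : ℕ → ℝ) (j : ℕ) : ℝ := if Lp S D x j then 1 else 0

lemma ind_nonneg {D : ℝ} {x : ℕ → ℝ} {j : ℕ} : 0 ≤ ind S D x j := by
  unfold ind; split_ifs <;> norm_num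

lemma ind_of {D : ℝ} {x : ℕ → ℝ} {j : ℕ} (h : Lp S D x j) : ind S D x j = 1 := by
  unfold ind; rw [if_pos h]

/-- difference of the strings -/
lemma av_str_diff {x x' : ℕ → ℝ} {r r' D : ℝ} (hx : Bd r x) (hx' : Bd r' x')
    (hD : 0 < D) (hxx : Bd D (fun i => x i - x' i)) (j : ℕ) :
    |av S j (str S (2 * T S j x) x) - av S j (str S (2 * T S j x') x')| ≤
      D / 25 + 5 * D * (ind S D x j + ind S D x' j) := by
  by_cases h : Lp S D x j ∨ Lp S D x' j
  · have h1 : 1 ≤ ind S D x j + ind S D x' j := by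
      rcases h with h | h
      · rw [ind_of h]; linarith [ind_nonneg (S := S) (D := D) (x := x') (j := j)]
      · rw [ind_of h]; linarith [ind_nonneg (S := S) (D := D) (x := x) (j := j)]
    have h2 : |av S j (str S (2 * T S j x) x) - av S j (str S (2 * T S j x') x')| ≤ 5 * D := by
      rw [← av_sub]
      refine abs_av_le_of (by positivity) (fun i _ => ?_)
      refine (str_lip hxx i).trans ?_
      have h3 := T_diff (S := S) hx hx' hxx j
      have h4 : |2 * T S j x - 2 * T S j x'| = 2 * |T S j x - T S j x'| := by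
        rw [← mul_sub, abs_mul, abs_two]
      rw [h4]; linarith
    have h3 : 5 * D * 1 ≤ 5 * D * (ind S D x j + ind S D x' j) :=
      mul_le_mul_of_nonneg_left h1 (by positivity)
    have : 0 < D / 25 := by positivity
    linarith
  · push Not at h
    have h1 := av_str_small hx hD h.1
    have h2 := av_str_small hx' hD h.2
    have h3 : 0 ≤ 5 * D * (ind S D x j + ind S D x' j) :=
      mul_nonneg (by positivity) (add_nonneg ind_nonneg ind_nonneg)
    have := (abs_sub (av S j (str S (2 * T S j x) x))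
      (av S j (str S (2 * T S j x') x'))).trans (add_le_add h1 h2)
    linarith

/-- one-sided version of the difference of the predicted values -/
lemma gg_diff_aux {x x' : ℕ → ℝ} {r r' D t : ℝ} (hx : Bd r x) (hx' : Bd r' x')
    (hD : 0 < D) (hxx : Bd D (fun i => x i - x' i)) (ht : t ∈ Icc (0 : ℝ) 1) (j : ℕ)
    (hT : T S j x' ≤ T S j x) :
    |gg S t j x - gg S t j x'| ≤
      (1 - t * eps (T S j x)) * av S j (fun i => |x i - x' i|) +
      (t * eps (T S j x)) * ((4 / 64 + 4 / 100) * D) +
      5 * (t * eps (T S j x)) * D * (ind S D x j + ind S D x' j) := by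
  have hT0 := T_nonneg (S := S) hx' j
  have hT1 := hT0.trans hT
  obtain ⟨h0, h1⟩ := te_le ht hT1
  have e1 : gg S t j x - gg S t j x' =
      (1 - t * eps (T S j x)) * av S j (fun i => x i - x' i) +
      t * eps (T S j x) * (av S j (str S (2 * T S j x) x) - av S j (str S (2 * T S j x') x')) -
      t * (eps (T S j x) - eps (T S j x')) * hh S j x' := by
    rw [av_sub, gg_eq, gg_eq, hh_eq]; ring
  have h2 : |(1 - t * eps (T S j x)) * av S j (fun i => x i - x' i)| ≤
      (1 - t * eps (T S j x)) * av S j (fun i => |x i - x' i|) := by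
    rw [abs_mul, abs_of_nonneg (by linarith : 0 ≤ 1 - t * eps (T S j x))]
    exact mul_le_mul_of_nonneg_left (abs_av_le _ _) (by linarith)
  have h3 : |t * eps (T S j x) *
      (av S j (str S (2 * T S j x) x) - av S j (str S (2 * T S j x') x'))| ≤
      t * eps (T S j x) * (D / 25 + 5 * D * (ind S D x j + ind S D x' j)) := by
    rw [abs_mul, abs_of_nonneg h0]
    exact mul_le_mul_of_nonneg_left (av_str_diff hx hx' hD hxx j) h0
  have h4 : |t * (eps (T S j x) - eps (T S j x')) * hh S j x'| ≤
      t * eps (T S j x) * ((4 / 64) * D) := by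
    have hm := eps_mono hT0 hT
    have hd := eps_diff hT0 hT
    have hb := hh_bd (S := S) hx' j
    have hTd := T_diff (S := S) hx hx' hxx j
    rw [abs_of_nonneg (by linarith)] at hTd
    rw [abs_mul, abs_mul, abs_of_nonneg ht.1, abs_of_nonneg (by linarith :
      0 ≤ eps (T S j x) - eps (T S j x'))]
    have he := eps_nonneg hT1
    calc t * (eps (T S j x) - eps (T S j x')) * |hh S j x'|
        ≤ t * (eps (T S j x) - eps (T S j x')) * (2 * T S j x') :=
          mul_le_mul_of_nonneg_left hb (mul_nonneg ht.1 (by linarith))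
      _ = 2 * t * ((eps (T S j x) - eps (T S j x')) * T S j x') := by ring
      _ ≤ 2 * t * ((1 / 64) * eps (T S j x) * (T S j x - T S j x')) :=
          mul_le_mul_of_nonneg_left hd (by linarith [ht.1])
      _ ≤ 2 * t * ((1 / 64) * eps (T S j x) * (2 * D)) := by
          apply mul_le_mul_of_nonneg_left _ (by linarith [ht.1])
          exact mul_le_mul_of_nonneg_left hTd (by positivity)
      _ = _ := by ring
  rw [e1]
  refine (abs_sub _ _).trans ?_
  refine (add_le_add (abs_add_le _ _) le_rfl).trans ?_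
  refine (add_le_add (add_le_add h2 h3) h4).trans ?_
  apply le_of_eq
  ring

lemma ee_comm (x x' : ℕ → ℝ) (j : ℕ) : ee S x x' j = ee S x' x j := by
  unfold ee; rw [max_comm]

/-- difference of the predicted values -/
lemma gg_diff {x x' : ℕ → ℝ} {r r' D t : ℝ} (hx : Bd r x) (hx' : Bd r' x')
    (hD : 0 < D) (hxx : Bd D (fun i => x i - x' i)) (ht : t ∈ Icc (0 : ℝ) 1) (j : ℕ) :
    |gg S t j x - gg S t j x'| ≤
      (1 - t * ee S x x' j) * av S j (fun i => |x i - x' i|) +
      (t * ee S x x' j) * ((4 / 64 + 4 / 100) * D) +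
      5 * (t * ee S x x' j) * D * (ind S D x j + ind S D x' j) := by
  rcases le_total (T S j x') (T S j x) with h | h
  · have : ee S x x' j = eps (T S j x) := by unfold ee; rw [max_eq_left h]
    rw [this]
    exact gg_diff_aux hx hx' hD hxx ht j h
  · have : ee S x x' j = eps (T S j x') := by unfold ee; rw [max_eq_right h]
    rw [this]
    have hxx' : Bd D (fun i => x' i - x i) := fun i => by rw [abs_sub_comm]; exact hxx i
    have h1 := gg_diff_aux hx' hx hD hxx' ht j h
    rw [abs_sub_comm (gg S t j x), add_comm (ind S D x j)]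
    have e : (fun i => |x i - x' i|) = fun i => |x' i - x i| := by
      funext i; rw [abs_sub_comm]
    rw [e]; exact h1

/-- the difference inequality -/
theorem diff_ineq {x x' : ℕ → ℝ} {r r' D δ t : ℝ} (hx : Bd r x) (hx' : Bd r' x')
    (hrr : r' ≤ r) (hrD : r - r' ≤ D) (hD : 0 < D) (hxx : Bd D (fun i => x i - x' i))
    (ht : t ∈ Icc (0 : ℝ) 1) {j : ℕ} (hf : |fm S t r x j - fm S t r' x' j| ≤ δ) :
    |x j - x' j| ≤ δ + (2 / 2 ^ (j + 10)) * D +
      ((t * ee S x x' j) * ((4 / 64 + 4 / 100) * D) +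
      5 * (t * ee S x x' j) * D * (ind S D x j + ind S D x' j)) +
      (1 - t * q j r) * ((1 - t * ee S x x' j) * av S j (fun i => |x i - x' i|)) := by
  have hr' : 0 ≤ r' := (abs_nonneg _).trans (hx' 0)
  have hT0 : 0 ≤ max (T S j x) (T S j x') := (T_nonneg (S := S) hx j).trans (le_max_left _ _)
  have hte : 0 ≤ t * ee S x x' j := (te_le ht hT0).1
  have htq0 : 0 ≤ 1 - t * q j r := by
    have := mul_le_mul ht.2 (q_le_one j r) (q_nonneg j r) zero_le_one
    linarith
  have htq1 : 1 - t * q j r ≤ 1 := by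
    have := mul_nonneg ht.1 (q_nonneg j r)
    linarith
  have e1 : x j - x' j = (fm S t r x j - fm S t r' x' j) +
      (1 - t * q j r) * (gg S t j x - gg S t j x') +
      t * (q j r' - q j r) * gg S t j x' := by
    rw [fm_eq, fm_eq]; ring
  have h1 : |t * (q j r' - q j r) * gg S t j x'| ≤ (2 / 2 ^ (j + 10)) * D := by
    rw [abs_mul, abs_mul, abs_of_nonneg ht.1, abs_sub_comm]
    have hb := gg_bd (S := S) hx' ht j
    have hq := q_diff (j := j) hr' hrr
    calc t * |q j r - q j r'| * |gg S t j x'| ≤ 1 * |q j r - q j r'| * r' :=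
          mul_le_mul (mul_le_mul_of_nonneg_right ht.2 (abs_nonneg _)) hb (abs_nonneg _)
            (by positivity)
      _ = |q j r - q j r'| * r' := by ring
      _ ≤ (2 / 2 ^ (j + 10)) * (r - r') := hq
      _ ≤ (2 / 2 ^ (j + 10)) * D := mul_le_mul_of_nonneg_left hrD (by positivity)
  have h2 := gg_diff hx hx' hD hxx ht j (S := S)
  have h3 : |(1 - t * q j r) * (gg S t j x - gg S t j x')| ≤
      (1 - t * q j r) * ((1 - t * ee S x x' j) * av S j (fun i => |x i - x' i|)) +
      ((t * ee S x x' j) * ((4 / 64 + 4 / 100) * D) +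
      5 * (t * ee S x x' j) * D * (ind S D x j + ind S D x' j)) := by
    rw [abs_mul, abs_of_nonneg htq0]
    have hrest : 0 ≤ (t * ee S x x' j) * ((4 / 64 + 4 / 100) * D) +
        5 * (t * ee S x x' j) * D * (ind S D x j + ind S D x' j) := by
      have h5 : 0 ≤ ind S D x j + ind S D x' j := add_nonneg ind_nonneg ind_nonneg
      positivity
    calc (1 - t * q j r) * |gg S t j x - gg S t j x'|
        ≤ (1 - t * q j r) * ((1 - t * ee S x x' j) * av S j (fun i => |x i - x' i|) +
          ((t * ee S x x' j) * ((4 / 64 + 4 / 100) * D) +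
          5 * (t * ee S x x' j) * D * (ind S D x j + ind S D x' j))) :=
          mul_le_mul_of_nonneg_left (by linarith) htq0
      _ = (1 - t * q j r) * ((1 - t * ee S x x' j) * av S j (fun i => |x i - x' i|)) +
          (1 - t * q j r) * (((t * ee S x x' j) * ((4 / 64 + 4 / 100) * D) +
          5 * (t * ee S x x' j) * D * (ind S D x j + ind S D x' j))) := by ring
      _ ≤ _ := by
          have := mul_le_mul_of_nonneg_right htq1 hrest
          linarith
  rw [e1]
  refine (abs_add_le _ _).trans ?_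
  refine (add_le_add (abs_add_le _ _) le_rfl).trans ?_
  linarith

end Pool.Helper60.UC
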