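import Pool.Agent.Helper60.UC.Defs

set_option autoImplicit false
noncomputable section
open Set Filter Topology

namespace Pool.Helper60.UC

/-- candidate set of children of `j` -/
def cand (j : ℕ) : Finset ℕ := (Denumerable.eqv (Finset ℕ)).symm (Nat.unpair j).2

/-- validity of the candidate -/
def Valid (g : ℕ → ℕ) (j : ℕ) : Prop :=
  (∀ i ∈ cand j, i < j) ∧ (∀ i ∈ cand j, ∀ i' ∈ cand j, i < i' → i < g i') ∧
    ∃ i ∈ cand j, (∀ i' ∈ cand j, g i ≤ g i') ∧ G (g i) ≤ (cand j).card

open Classical in
/-- first descendant -/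
def loF (j : ℕ) : ℕ :=
  Nat.strongRec (motive := fun _ => ℕ)
    (fun j f =>
      if h : Valid (fun i => if hi : i < j then f i hi else 0) j then
        (fun i => if hi : i < j then f i hi else 0) h.2.2.choose
      else j) j

open Classical in
theorem loF_eq (j : ℕ) :
    loF j = if h : Valid (fun i => if i < j then loF i else 0) j then
        (fun i => if i < j then loF i else 0) h.2.2.choose
      else j := by
  unfold loF
  rw [Nat.strongRec]
  rfl

theorem valid_iff (j : ℕ) :
    Valid (fun i => if i < j then loF i else 0) j ↔ Valid loF j := by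
  unfold Valid
  refine and_congr_right fun h1 => ?_
  have key : ∀ i ∈ cand j, (if i < j then loF i else 0) = loF i := fun i hi => if_pos (h1 i hi)
  constructor
  · rintro ⟨h2, i, hi, h3, h4⟩
    refine ⟨fun a ha b hb hab => ?_, i, hi, fun b hb => ?_, ?_⟩
    · have := h2 a ha b hb hab
      simpa only [key b hb] using this
    · have := h3 b hb
      simpa only [key b hb, key i hi] using this
    · simpa only [key i hi] using h4
  · rintro ⟨h2, i, hi, h3, h4⟩
    refine ⟨fun a ha b hb hab => ?_, i, hi, fun b hb => ?_, ?_⟩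
    · simpa only [key b hb] using h2 a ha b hb hab
    · simpa only [key b hb, key i hi] using h3 b hb
    · simpa only [key i hi] using h4

theorem loF_of_not {j : ℕ} (h : ¬ Valid loF j) : loF j = j := by
  rw [loF_eq, dif_neg]
  rwa [valid_iff]

theorem loF_of_valid {j : ℕ} (h : Valid loF j) :
    ∃ i ∈ cand j, loF j = loF i ∧ (∀ i' ∈ cand j, loF i ≤ loF i') ∧
      G (loF i) ≤ (cand j).card := by
  have h' := (valid_iff j).2 h
  have hs := h'.2.2.choose_spec
  have key : ∀ i ∈ cand j, (if i < j then loF i else 0) = loF i :=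
    fun i hi => if_pos (h.1 i hi)
  refine ⟨h'.2.2.choose, hs.1, ?_, fun b hb => ?_, ?_⟩
  · rw [loF_eq, dif_pos h']
    exact key _ hs.1
  · have := hs.2.1 b hb
    simpa only [key b hb, key _ hs.1] using this
  · have := hs.2.2
    simpa only [key _ hs.1] using this

open Classical in
/-- children -/
def chF (j : ℕ) : Finset ℕ := if Valid loF j then cand j else ∅

theorem mem_chF {j i : ℕ} (h : i ∈ chF j) : Valid loF j ∧ i ∈ cand j := by
  unfold chF at h
  split_ifs at h with hv
  · exact ⟨hv, h⟩
  · simp at h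

theorem chF_of_valid {j : ℕ} (h : Valid loF j) : chF j = cand j := if_pos h

theorem cand_pair (a : ℕ) (B : Finset ℕ) : cand (Nat.pair a (Denumerable.eqv (Finset ℕ) B)) = B := by
  unfold cand
  rw [Nat.unpair_pair]
  exact Equiv.symm_apply_apply _ B

/-- UC-1 -/
theorem exists_sys : Nonempty Sys := by
  refine ⟨⟨chF, loF, ?_, ?_, ?_, ?_, ?_, ?_, ?_⟩⟩
  · intro j i hi
    obtain ⟨hv, hc⟩ := mem_chF hi
    exact hv.1 i hc
  · intro j hj
    by_cases hv : Valid loF j
    · rw [chF_of_valid hv] at hj
      obtain ⟨i, hi, -⟩ := hv.2.2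
      rw [hj] at hi
      simp at hi
    · exact loF_of_not hv
  · intro j i hi
    obtain ⟨hv, hc⟩ := mem_chF hi
    obtain ⟨k, hk, h1, h2, h3⟩ := loF_of_valid hv
    rw [h1]
    exact h2 i hc
  · rintro j ⟨i, hi⟩
    obtain ⟨hv, hc⟩ := mem_chF hi
    obtain ⟨k, hk, h1, h2, h3⟩ := loF_of_valid hv
    exact ⟨k, by rw [chF_of_valid hv]; exact hk, h1⟩
  · intro j i i' hi hi' hlt
    obtain ⟨hv, hc⟩ := mem_chF hi
    obtain ⟨-, hc'⟩ := mem_chF hi'
    exact hv.2.1 i hc i' hc' hlt
  · rintro j ⟨i, hi⟩
    obtain ⟨hv, hc⟩ := mem_chF hi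
    obtain ⟨k, hk, h1, h2, h3⟩ := loF_of_valid hv
    rw [chF_of_valid hv, h1]
    exact h3
  · intro B hsep hB p
    refine ⟨Nat.pair (max (p + 1) (B.sup id + 1)) (Denumerable.eqv (Finset ℕ) B), ?_, ?_⟩
    · have := Nat.left_le_pair (max (p + 1) (B.sup id + 1)) (Denumerable.eqv (Finset ℕ) B)
      have h2 := le_max_left (p + 1) (B.sup id + 1)
      omega
    · rcases hB with rfl | ⟨i, hi, h1, h2⟩
      · by_cases hv : Valid loF (Nat.pair (max (p + 1) ((∅ : Finset ℕ).sup id + 1))
          (Denumerable.eqv (Finset ℕ) (∅ : Finset ℕ)))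
        · rw [chF_of_valid hv, cand_pair]
        · exact if_neg hv
      · have hv : Valid loF (Nat.pair (max (p + 1) (B.sup id + 1)) (Denumerable.eqv (Finset ℕ) B)) := by
          unfold Valid
          rw [cand_pair]
          refine ⟨fun k hk => ?_, hsep, i, hi, h1, h2⟩
          have h3 := Nat.left_le_pair (max (p + 1) (B.sup id + 1)) (Denumerable.eqv (Finset ℕ) B)
          have h4 := le_max_right (p + 1) (B.sup id + 1)
          have h5 : k ≤ B.sup id := Finset.le_sup (f := id) hk
          omega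
        rw [chF_of_valid hv, cand_pair]

end Pool.Helper60.UC
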