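import Pool.Agent.Helper60.UC.Defs

set_option autoImplicit false
noncomputable section
open Set Filter Topology

namespace Pool.Helper60.UC

/-! ### scalar functions -/

lemma min_one_nonneg {t : ℝ} (ht : 0 ≤ t) : 0 ≤ min 1 t := le_min zero_le_one ht

lemma eps_nonneg {t : ℝ} (ht : 0 ≤ t) : 0 ≤ eps t := by
  unfold eps
  have := Real.rpow_nonneg (min_one_nonneg ht) (1 / 64 : ℝ)
  positivity

lemma eps_pos {t : ℝ} (ht : 0 < t) : 0 < eps t := by
  unfold eps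
  have := Real.rpow_pos_of_pos (lt_min zero_lt_one ht) (1 / 64 : ℝ)
  positivity

lemma eps_le {t : ℝ} (ht : 0 ≤ t) : eps t ≤ 1 / 2 ^ 20 := by
  unfold eps
  have : (min 1 t) ^ (1 / 64 : ℝ) ≤ 1 :=
    Real.rpow_le_one (min_one_nonneg ht) (min_le_left _ _) (by norm_num)
  linarith

lemma eps_mono {s t : ℝ} (hs : 0 ≤ s) (hst : s ≤ t) : eps s ≤ eps t := by
  unfold eps
  have : (min 1 s) ^ (1 / 64 : ℝ) ≤ (min 1 t) ^ (1 / 64 : ℝ) :=
    Real.rpow_le_rpow (min_one_nonneg hs) (min_le_min_left _ hst) (by norm_num)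
  linarith

lemma eps_zero : eps 0 = 0 := by
  unfold eps
  rw [min_eq_right (zero_le_one), Real.zero_rpow (by norm_num)]
  simp

/-- elementary concavity: `(b^κ - a^κ) a ≤ κ b^κ (b - a)` -/
lemma rpow_diff {a b : ℝ} (ha : 0 ≤ a) (hab : a ≤ b) :
    (b ^ (1 / 64 : ℝ) - a ^ (1 / 64 : ℝ)) * a ≤ (1 / 64) * b ^ (1 / 64 : ℝ) * (b - a) := by
  rcases ha.eq_or_lt with rfl | ha'
  · simp only [mul_zero, sub_zero]
    have := Real.rpow_nonneg hab (1 / 64 : ℝ)
    positivity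
  have hb : 0 < b := ha'.trans_le hab
  -- a^κ ≥ b^κ (1 - κ (b - a)/a), Bernoulli: (b/a)^κ ≤ 1 + κ (b/a - 1)
  have h1 : (b / a) ^ (1 / 64 : ℝ) ≤ 1 + (1 / 64) * (b / a - 1) := by
    have hx : -1 ≤ b / a - 1 := by
      have : 0 < b / a := by positivity
      linarith
    have := rpow_one_add_le_one_add_mul_self hx (p := 1 / 64) (by norm_num) (by norm_num)
    have e : 1 + (b / a - 1) = b / a := by ring
    rw [e] at this
    exact this
  have h2 : (b / a) ^ (1 / 64 : ℝ) = b ^ (1 / 64 : ℝ) / a ^ (1 / 64 : ℝ) :=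
    Real.div_rpow hb.le ha'.le _
  have hA : 0 < a ^ (1 / 64 : ℝ) := Real.rpow_pos_of_pos ha' _
  have hB : a ^ (1 / 64 : ℝ) ≤ b ^ (1 / 64 : ℝ) := Real.rpow_le_rpow ha'.le hab (by norm_num)
  rw [h2, div_le_iff₀ hA] at h1
  have h3 : (b ^ (1 / 64 : ℝ) - a ^ (1 / 64 : ℝ)) * a ≤
      (1 / 64) * a ^ (1 / 64 : ℝ) * (b - a) := by
    have e : (1 + 1 / 64 * (b / a - 1)) * a ^ (1 / 64 : ℝ) * a =
        a ^ (1 / 64 : ℝ) * a + (1 / 64) * a ^ (1 / 64 : ℝ) * (b - a) := by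
      field_simp
    have := mul_le_mul_of_nonneg_right h1 ha'.le
    rw [e] at this
    linarith
  refine h3.trans ?_
  have : 0 ≤ b - a := by linarith
  have := mul_le_mul_of_nonneg_right hB this
  nlinarith

lemma eps_diff {s t : ℝ} (hs : 0 ≤ s) (hst : s ≤ t) :
    (eps t - eps s) * s ≤ (1 / 64) * eps t * (t - s) := by
  have ht : 0 ≤ t := hs.trans hst
  unfold eps
  rcases le_total 1 s with h1 | h1
  · rw [min_eq_left h1, min_eq_left (h1.trans hst)]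
    simp only [Real.one_rpow, mul_one, sub_self, zero_mul]
    have : 0 ≤ t - s := by linarith
    positivity
  · have e1 : min 1 s = s := min_eq_right h1
    have h2 : s ≤ min 1 t := le_min h1 hst
    have h3 := rpow_diff hs h2
    rw [e1]
    have h4 : min 1 t - s ≤ t - s := by linarith [min_le_right 1 t]
    have h5 : 0 ≤ (min 1 t) ^ (1 / 64 : ℝ) := Real.rpow_nonneg (min_one_nonneg ht) _
    have h6 : (1 / 64) * (min 1 t) ^ (1 / 64 : ℝ) * (min 1 t - s) ≤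
        (1 / 64) * (min 1 t) ^ (1 / 64 : ℝ) * (t - s) :=
      mul_le_mul_of_nonneg_left h4 (by positivity)
    have h7 := h3.trans h6
    have e : (1 / 2 ^ 20 * (min 1 t) ^ (1 / 64 : ℝ) - 1 / 2 ^ 20 * s ^ (1 / 64 : ℝ)) * s =
        1 / 2 ^ 20 * (((min 1 t) ^ (1 / 64 : ℝ) - s ^ (1 / 64 : ℝ)) * s) := by ring
    rw [e]
    calc _ ≤ 1 / 2 ^ 20 * ((1 / 64) * (min 1 t) ^ (1 / 64 : ℝ) * (t - s)) :=
          mul_le_mul_of_nonneg_left h7 (by positivity)
      _ = _ := by ring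

lemma q_nonneg (j : ℕ) (r : ℝ) : 0 ≤ q j r := le_max_left _ _

lemma q_le_one (j : ℕ) (r : ℝ) : q j r ≤ 1 := max_le zero_le_one (min_le_left _ _)

lemma q_one {j : ℕ} {r : ℝ} (h : (rho j : ℝ) ≤ Real.logb 2 r) : q j r = 1 := by
  unfold q
  have h1 : (2 : ℝ) ^ (j + 10) ≤ Real.logb 2 r - j := by
    have : (rho j : ℝ) = j + 2 ^ (j + 10) := by unfold rho; push_cast; ring
    linarith
  have h2 : 1 ≤ (1 / 2 ^ (j + 10)) * (Real.logb 2 r - j) := by
    rw [one_div, ← div_eq_inv_mul, le_div_iff₀ (by positivity)]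
    linarith
  rw [min_eq_left h2, max_eq_right zero_le_one]

lemma q_zero {j : ℕ} {r : ℝ} (hr : 0 ≤ r) (h : r ≤ 2 ^ j) : q j r = 0 := by
  unfold q
  have h1 : Real.logb 2 r ≤ j := by
    rcases hr.eq_or_lt with rfl | hr'
    · simp
    · rw [Real.logb_le_iff_le_rpow (by norm_num) hr']
      simpa using h
  have h2 : (1 / 2 ^ (j + 10)) * (Real.logb 2 r - j) ≤ 0 :=
    mul_nonpos_of_nonneg_of_nonpos (by positivity) (by linarith)
  rw [max_eq_left]
  exact (min_le_right _ _).trans h2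

lemma q_diff {j : ℕ} {r s : ℝ} (hs : 0 ≤ s) (hsr : s ≤ r) :
    |q j r - q j s| * s ≤ (2 / 2 ^ (j + 10)) * (r - s) := by
  rcases hs.eq_or_lt with rfl | hs'
  · simp only [mul_zero, sub_zero]
    positivity
  have hr : 0 < r := hs'.trans_le hsr
  have h1 : |q j r - q j s| ≤ (1 / 2 ^ (j + 10)) * (Real.logb 2 r - Real.logb 2 s) := by
    unfold q
    refine (abs_max_sub_max_le_max _ _ _ _).trans ?_
    have hlog : Real.logb 2 s ≤ Real.logb 2 r :=
      (Real.logb_le_logb (by norm_num) hs' hr).mpr hsr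
    have h0 : 0 ≤ (1 / 2 ^ (j + 10)) * (Real.logb 2 r - Real.logb 2 s) := by
      have : 0 ≤ Real.logb 2 r - Real.logb 2 s := by linarith
      positivity
    refine max_le (by simpa using h0) ?_
    refine (abs_min_sub_min_le_max _ _ _ _).trans ?_
    refine max_le (by simpa using h0) ?_
    rw [← mul_sub, abs_mul]
    have : Real.logb 2 r - j - (Real.logb 2 s - j) = Real.logb 2 r - Real.logb 2 s := by ring
    rw [this, abs_of_nonneg (by positivity : (0 : ℝ) ≤ 1 / 2 ^ (j + 10)),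
      abs_of_nonneg (by linarith)]
  have h2 : (Real.logb 2 r - Real.logb 2 s) * s ≤ 2 * (r - s) := by
    have e : Real.logb 2 r - Real.logb 2 s = Real.log (r / s) / Real.log 2 := by
      rw [Real.logb, Real.logb, ← sub_div, Real.log_div hr.ne' hs'.ne']
    rw [e]
    have h3 : Real.log (r / s) ≤ r / s - 1 := Real.log_le_sub_one_of_pos (by positivity)
    have h4 : (0.6931471803 : ℝ) < Real.log 2 := Real.log_two_gt_d9
    have h5 : Real.log (r / s) / Real.log 2 ≤ 2 * (r / s - 1) := by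
      rw [div_le_iff₀ (by linarith)]
      have h6 : 0 ≤ r / s - 1 := by
        rw [sub_nonneg, le_div_iff₀ hs']; linarith
      nlinarith
    calc _ ≤ 2 * (r / s - 1) * s := mul_le_mul_of_nonneg_right h5 hs
      _ = 2 * (r - s) := by field_simp
  calc |q j r - q j s| * s ≤ (1 / 2 ^ (j + 10)) * (Real.logb 2 r - Real.logb 2 s) * s :=
        mul_le_mul_of_nonneg_right h1 hs
    _ = (1 / 2 ^ (j + 10)) * ((Real.logb 2 r - Real.logb 2 s) * s) := by ring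
    _ ≤ (1 / 2 ^ (j + 10)) * (2 * (r - s)) := mul_le_mul_of_nonneg_left h2 (by positivity)
    _ = _ := by ring

lemma rho_mono {i j : ℕ} (h : i ≤ j) : rho i ≤ rho j := by
  unfold rho
  exact add_le_add h (Nat.pow_le_pow_right (by norm_num) (by omega))

lemma rho_pos (j : ℕ) : 1024 ≤ rho j := by
  unfold rho
  have : 2 ^ 10 ≤ 2 ^ (j + 10) := Nat.pow_le_pow_right (by norm_num) (by omega)
  omega

/-! ### the tail variation -/

lemma FF_le {t : ℝ} (ht : 0 ≤ t) : FF t ≤ 1026 / 2 ^ 20 := by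
  unfold FF
  have := Real.rpow_nonneg (min_one_nonneg ht) (1 / 64 : ℝ)
  linarith

lemma FF_ge {t : ℝ} (ht : 0 ≤ t) : 514 / 2 ^ 20 ≤ FF t := by
  unfold FF
  have : (min 1 t) ^ (1 / 64 : ℝ) ≤ 1 :=
    Real.rpow_le_one (min_one_nonneg ht) (min_le_left _ _) (by norm_num)
  linarith

lemma FF_anti {s t : ℝ} (hs : 0 ≤ s) (hst : s ≤ t) : FF t ≤ FF s := by
  unfold FF
  have : (min 1 s) ^ (1 / 64 : ℝ) ≤ (min 1 t) ^ (1 / 64 : ℝ) :=
    Real.rpow_le_rpow (min_one_nonneg hs) (min_le_min_left _ hst) (by norm_num)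
  linarith

lemma two_rpow_ge : (1 : ℝ) + 1 / 128 ≤ (2 : ℝ) ^ (1 / 64 : ℝ) := by
  have h : ((1 : ℝ) + 1 / 128) ^ (64 : ℕ) ≤ 2 := by norm_num
  have h2 : (((1 : ℝ) + 1 / 128) ^ (64 : ℕ)) ^ (1 / 64 : ℝ) ≤ (2 : ℝ) ^ (1 / 64 : ℝ) :=
    Real.rpow_le_rpow (by positivity) h (by norm_num)
  rw [← Real.rpow_natCast, ← Real.rpow_mul (by positivity)] at h2
  norm_num at h2 ⊢
  exact h2

/-- the leak at scale `201 s` is compensated by the decrease of `FF` from `s` to `2 s` -/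
lemma FF_step {s : ℝ} (hs : 0 ≤ s) (hs2 : s ≤ 1 / 2) : 2 * eps (201 * s) ≤ FF s - FF (2 * s) := by
  have h1 : min 1 s = s := min_eq_right (by linarith)
  have h2 : min 1 (2 * s) = 2 * s := min_eq_right (by linarith)
  have h3 : (min 1 (201 * s)) ^ (1 / 64 : ℝ) ≤ (201 * s) ^ (1 / 64 : ℝ) :=
    Real.rpow_le_rpow (min_one_nonneg (by linarith)) (min_le_right _ _) (by norm_num)
  have h4 : (201 * s) ^ (1 / 64 : ℝ) = 201 ^ (1 / 64 : ℝ) * s ^ (1 / 64 : ℝ) :=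
    Real.mul_rpow (by norm_num) hs
  have h5 : (201 : ℝ) ^ (1 / 64 : ℝ) ≤ 2 := by
    have : (201 : ℝ) ^ (1 / 64 : ℝ) ≤ ((2 : ℝ) ^ (64 : ℕ)) ^ (1 / 64 : ℝ) :=
      Real.rpow_le_rpow (by norm_num) (by norm_num) (by norm_num)
    rw [← Real.rpow_natCast, ← Real.rpow_mul (by norm_num)] at this
    norm_num at this
    exact this
  have h6 : (2 * s) ^ (1 / 64 : ℝ) = 2 ^ (1 / 64 : ℝ) * s ^ (1 / 64 : ℝ) :=
    Real.mul_rpow (by norm_num) hs
  have h7 := two_rpow_ge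
  have h8 : 0 ≤ s ^ (1 / 64 : ℝ) := Real.rpow_nonneg hs _
  unfold FF eps
  rw [h1, h2, h6]
  rw [h4] at h3
  have h9 : (min 1 (201 * s)) ^ (1 / 64 : ℝ) ≤ 2 * s ^ (1 / 64 : ℝ) :=
    h3.trans (mul_le_mul_of_nonneg_right h5 h8)
  have h10 : (1 + 1 / 128) * s ^ (1 / 64 : ℝ) ≤ 2 ^ (1 / 64 : ℝ) * s ^ (1 / 64 : ℝ) :=
    mul_le_mul_of_nonneg_right h7 h8
  nlinarith

end Pool.Helper60.UC
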