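import Pool.Agent.Helper60.UC.Space
import Pool.Agent.Helper60.UC.Scalar

set_option autoImplicit false
noncomputable section
open Set Filter Topology

namespace Pool.Helper60.UC

variable {S : Sys}

/-- harmonic extension of a finite vector -/
def ext (S : Sys) (n : ℕ) (z : Fin n → ℝ) : ℕ → ℝ :=
  P S n (fun j => if h : j < n then z ⟨j, h⟩ else 0)

/-- the coding map on the first `n` coordinates -/
def Fn (S : Sys) (t : ℝ) (n : ℕ) (z : Fin n → ℝ) : Fin n → ℝ :=
  fun j => fm S t ‖z‖ (ext S n z) j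

/-- UC-3a -/
theorem ext_lt (n : ℕ) (z : Fin n → ℝ) {j : ℕ} (h : j < n) : ext S n z j = z ⟨j, h⟩ := by
  unfold ext
  rw [P_lt h, dif_pos h]

theorem ext_bd (n : ℕ) (z : Fin n → ℝ) : Bd ‖z‖ (ext S n z) := by
  refine P_bd (norm_nonneg _) (fun j hj => ?_)
  rw [dif_pos hj]
  exact norm_le_pi_norm z ⟨j, hj⟩

theorem ext_P {n m : ℕ} (hnm : n ≤ m) (z : Fin n → ℝ) : P S m (ext S n z) = ext S n z :=
  P_P hnm _

theorem ext_sub (n : ℕ) (z z' : Fin n → ℝ) :
    (fun i => ext S n z i - ext S n z' i) = ext S n (z - z') := by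
  unfold ext
  rw [← P_sub]
  refine P_congr (fun j hj => ?_)
  rw [dif_pos hj, dif_pos hj, dif_pos hj, Pi.sub_apply]

/-- UC-3b: general fact: a small Lipschitz perturbation of an expanding bijection is onto -/
theorem perturb_surj {E F : Type*} [NormedAddCommGroup E] [CompleteSpace E]
    [NormedAddCommGroup F] (g h : E → F) {κ L : ℝ} (hκ : 0 < κ)
    (hg : ∀ x y, κ * ‖x - y‖ ≤ ‖g x - g y‖) (hgs : Function.Surjective g)
    (hh : ∀ x y, ‖h x - h y‖ ≤ L * ‖x - y‖) (hL : L < κ) :
    Function.Surjective (fun x => g x + h x) := by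
  intro c
  choose gi hgi using hgs
  have hc : ContractingWith (Real.toNNReal (L / κ)) (fun x => gi (c - h x)) := by
    refine ⟨?_, LipschitzWith.of_dist_le_mul (fun x y => ?_)⟩
    · rw [Real.toNNReal_lt_one, div_lt_one hκ]
      exact hL
    · rw [dist_eq_norm, dist_eq_norm]
      have h1 := hg (gi (c - h x)) (gi (c - h y))
      rw [hgi, hgi] at h1
      have h2 : ‖c - h x - (c - h y)‖ = ‖h x - h y‖ := by
        rw [← norm_neg]
        congr 1
        abel
      rw [h2] at h1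
      have h3 := h1.trans (hh x y)
      have h4 : ‖gi (c - h x) - gi (c - h y)‖ ≤ L / κ * ‖x - y‖ := by
        rw [div_mul_eq_mul_div, le_div_iff₀ hκ]
        linarith
      exact h4.trans (mul_le_mul_of_nonneg_right (Real.le_coe_toNNReal _) (norm_nonneg _))
  refine ⟨ContractingWith.fixedPoint _ hc, ?_⟩
  have h1 : gi (c - h (ContractingWith.fixedPoint _ hc)) = ContractingWith.fixedPoint _ hc :=
    hc.fixedPoint_isFixedPt
  have h2 : g (ContractingWith.fixedPoint _ hc) = c - h (ContractingWith.fixedPoint _ hc) := by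
    conv_lhs => rw [← h1]
    rw [hgi]
  change g _ + h _ = c
  rw [h2, sub_add_cancel]

/-- solution of `x j = y j + av_j x` -/
def solveAv (S : Sys) (y : ℕ → ℝ) (j : ℕ) : ℝ :=
  y j + (∑ i ∈ (S.ch j).attach, solveAv S y i.1) / (S.ch j).card
termination_by j
decreasing_by exact S.ch_lt i.2

lemma solveAv_eq (y : ℕ → ℝ) (j : ℕ) : solveAv S y j = y j + av S j (solveAv S y) := by
  rw [solveAv]
  unfold av
  rw [Finset.sum_attach (S.ch j) (fun i => solveAv S y i)]

/-- UC-3c: for `t = 0` the map is triangular -/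
theorem Fn_zero_surj (n : ℕ) : Function.Surjective (Fn S 0 n) := by
  intro y
  let x := solveAv S (fun j => if h : j < n then y ⟨j, h⟩ else 0)
  refine ⟨fun j => x j, ?_⟩
  funext j
  have h1 : ∀ i < n, ext S n (fun j : Fin n => x j) i = x i := fun i hi => ext_lt n _ hi
  have h2 : av S j (ext S n (fun j : Fin n => x j)) = av S j x :=
    av_congr (fun i hi => h1 i ((S.ch_lt hi).trans j.2))
  have h3 : x j = y j + av S j x := by
    have := solveAv_eq (S := S) (fun j => if h : j < n then y ⟨j, h⟩ else 0) j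
    rw [dif_pos j.2] at this
    exact this
  unfold Fn fm
  rw [h1 j j.2, h2, h3]
  ring

lemma q_mul_diff {j : ℕ} {r r' m m' D c : ℝ} (hr : 0 ≤ r) (hr' : 0 ≤ r') (hm : |m| ≤ r)
    (hm' : |m'| ≤ r') (hd : |r - r'| ≤ D) (hmm : |m - m'| ≤ c) :
    |q j r * m - q j r' * m'| ≤ c + D := by
  have key : ∀ {r r' m m' : ℝ}, 0 ≤ r' → |m'| ≤ r' → |r - r'| ≤ D → |m - m'| ≤ c → r' ≤ r →
      |q j r * m - q j r' * m'| ≤ c + D := by
    intro r r' m m' hr' hm' hd hmm hle
    have e : q j r * m - q j r' * m' = q j r * (m - m') + (q j r - q j r') * m' := by ring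
    rw [e]
    refine (abs_add_le _ _).trans (add_le_add ?_ ?_)
    · rw [abs_mul, abs_of_nonneg (q_nonneg j r)]
      calc q j r * |m - m'| ≤ 1 * |m - m'| :=
            mul_le_mul_of_nonneg_right (q_le_one j r) (abs_nonneg _)
        _ ≤ c := by rw [one_mul]; exact hmm
    · rw [abs_mul]
      have h1 := q_diff (j := j) hr' hle
      have h2 : |q j r - q j r'| * |m'| ≤ |q j r - q j r'| * r' :=
        mul_le_mul_of_nonneg_left hm' (abs_nonneg _)
      have h3 : 0 ≤ r - r' := by linarith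
      have h4 : (2 / 2 ^ (j + 10) : ℝ) ≤ 1 := by
        rw [div_le_one (by positivity)]
        calc (2 : ℝ) = 2 ^ 1 := by norm_num
          _ ≤ 2 ^ (j + 10) := pow_le_pow_right₀ (by norm_num) (by omega)
      have h5 : (2 / 2 ^ (j + 10) : ℝ) * (r - r') ≤ 1 * (r - r') :=
        mul_le_mul_of_nonneg_right h4 h3
      have h6 := le_abs_self (r - r')
      linarith
  rcases le_total r' r with h | h
  · exact key hr' hm' hd hmm h
  · rw [abs_sub_comm]
    rw [abs_sub_comm] at hd hmm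
    exact key hr hm hd hmm h

lemma eps_mul_diff {T T' h h' D : ℝ} (hT : 0 ≤ T) (hT' : 0 ≤ T') (hh : |h| ≤ 2 * T)
    (hh' : |h'| ≤ 2 * T') (hd : |T - T'| ≤ 2 * D) (hhh : |h - h'| ≤ 6 * D) :
    |eps T * h - eps T' * h'| ≤ D := by
  have key : ∀ {T T' h h' : ℝ}, 0 ≤ T' → |h'| ≤ 2 * T' → |T - T'| ≤ 2 * D →
      |h - h'| ≤ 6 * D → T' ≤ T → |eps T * h - eps T' * h'| ≤ D := by
    intro T T' h h' hT' hh' hd hhh hle
    have hT : 0 ≤ T := hT'.trans hle
    have hD : 0 ≤ D := by
      have := (abs_nonneg _).trans hd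
      linarith
    have e : eps T * h - eps T' * h' = eps T * (h - h') + (eps T - eps T') * h' := by ring
    rw [e]
    have h1 := eps_le hT
    have h2 := eps_nonneg hT
    have h3 := eps_mono hT' hle
    have h4 := eps_diff hT' hle
    have a1 : |eps T * (h - h')| ≤ 1 / 2 ^ 20 * (6 * D) := by
      rw [abs_mul, abs_of_nonneg h2]
      exact mul_le_mul h1 hhh (abs_nonneg _) (by positivity)
    have a2 : |(eps T - eps T') * h'| ≤ 2 * ((1 / 64) * eps T * (T - T')) := by
      rw [abs_mul, abs_of_nonneg (by linarith : 0 ≤ eps T - eps T')]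
      have h5 : (eps T - eps T') * |h'| ≤ (eps T - eps T') * (2 * T') :=
        mul_le_mul_of_nonneg_left hh' (by linarith)
      linarith
    have h6 : eps T * (T - T') ≤ 1 / 2 ^ 20 * (2 * D) := by
      have h7 := le_abs_self (T - T')
      exact mul_le_mul h1 (h7.trans hd) (by linarith) (by positivity)
    have h8 := abs_add_le (eps T * (h - h')) ((eps T - eps T') * h')
    have h9 : 2 * ((1 / 64) * eps T * (T - T')) = (1 / 32) * (eps T * (T - T')) := by ring
    rw [h9] at a2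
    have c : (1 : ℝ) / 2 ^ 20 = 1 / 1048576 := by norm_num
    rw [c] at a1 h6
    linarith
  rcases le_total T' T with h0 | h0
  · exact key hT' hh' hd hhh h0
  · rw [abs_sub_comm]
    rw [abs_sub_comm] at hd hhh
    exact key hT hh hd hhh h0

/-- UC-3d: the dependence on the parameter `t` is Lipschitz -/
theorem Fn_t_lip (n : ℕ) {s t : ℝ} (hs : s ∈ Icc (0 : ℝ) 1) (ht : t ∈ Icc (0 : ℝ) 1)
    (z z' : Fin n → ℝ) :
    ‖(Fn S t n z - Fn S s n z) - (Fn S t n z' - Fn S s n z')‖ ≤ 20 * |t - s| * ‖z - z'‖ := by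
  rw [pi_norm_le_iff_of_nonneg (by positivity)]
  intro j
  set D := ‖z - z'‖ with hD
  have hD0 : 0 ≤ D := norm_nonneg _
  set x := ext S n z with hx
  set x' := ext S n z' with hx'
  have hbx : Bd ‖z‖ x := ext_bd n z
  have hbx' : Bd ‖z'‖ x' := ext_bd n z'
  have hbd : Bd D (fun i => x i - x' i) := by
    rw [hx, hx', ext_sub]
    exact ext_bd n (z - z')
  set T₁ := T S j x with hT₁
  set T₂ := T S j x' with hT₂
  have hT1 : 0 ≤ T₁ := T_nonneg hbx j
  have hT2 : 0 ≤ T₂ := T_nonneg hbx' j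
  have hTd : |T₁ - T₂| ≤ 2 * D := T_diff hbx hbx' hbd j
  have hr : |‖z‖ - ‖z'‖| ≤ D := abs_norm_sub_norm_le z z'
  have hm : |av S j x| ≤ ‖z‖ := abs_av_le_of (norm_nonneg _) (fun i _ => hbx i)
  have hm' : |av S j x'| ≤ ‖z'‖ := abs_av_le_of (norm_nonneg _) (fun i _ => hbx' i)
  have hmm : |av S j x - av S j x'| ≤ D := by
    rw [← av_sub]
    exact abs_av_le_of hD0 (fun i _ => hbd i)
  have hh1 : |hh S j x| ≤ 2 * T₁ :=
    abs_av_le_of (by linarith) (fun i _ => str_near (by linarith) x i)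
  have hh2 : |hh S j x'| ≤ 2 * T₂ :=
    abs_av_le_of (by linarith) (fun i _ => str_near (by linarith) x' i)
  have hhh : |hh S j x - hh S j x'| ≤ 6 * D := by
    unfold hh
    rw [← av_sub]
    refine abs_av_le_of (by linarith) (fun i _ => ?_)
    have h1 := str_lip (S := S) (w := 2 * T S j x) (w' := 2 * T S j x') hbd i
    have h2 := hbd i
    have h3 : |2 * T S j x - 2 * T S j x'| ≤ 4 * D := by
      rw [← mul_sub, abs_mul, abs_of_pos (by norm_num : (0 : ℝ) < 2)]
      linarith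
    have e : x i - str S (2 * T S j x) x i - (x' i - str S (2 * T S j x') x' i) =
        (x i - x' i) - (str S (2 * T S j x) x i - str S (2 * T S j x') x' i) := by ring
    rw [e]
    have h4 := abs_sub (x i - x' i) (str S (2 * T S j x) x i - str S (2 * T S j x') x' i)
    linarith
  have hE := eps_mul_diff hT1 hT2 hh1 hh2 hTd hhh
  have hQ := q_mul_diff (j := j) (norm_nonneg z) (norm_nonneg z') hm hm' hr hmm
  have hEb : ∀ {T h r : ℝ}, 0 ≤ T → |h| ≤ 2 * T → T ≤ 2 * r → |eps T * h| ≤ r := by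
    intro T h r h0 h1 h2
    rw [abs_mul, abs_of_nonneg (eps_nonneg h0)]
    have h3 := eps_le h0
    have h4 : eps T * |h| ≤ 1 / 2 ^ 20 * (2 * T) :=
      mul_le_mul h3 h1 (abs_nonneg _) (by positivity)
    have c : (1 : ℝ) / 2 ^ 20 = 1 / 1048576 := by norm_num
    rw [c] at h4
    linarith
  have hQE := q_mul_diff (j := j) (norm_nonneg z) (norm_nonneg z')
    (hEb hT1 hh1 (T_le_two hbx j)) (hEb hT2 hh2 (T_le_two hbx' j)) hr hE
  have e : (Fn S t n z - Fn S s n z - (Fn S t n z' - Fn S s n z')) j =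
      (t - s) * ((eps T₁ * hh S j x - eps T₂ * hh S j x') +
        (q j ‖z‖ * av S j x - q j ‖z'‖ * av S j x') -
        (t + s) * (q j ‖z‖ * (eps T₁ * hh S j x) - q j ‖z'‖ * (eps T₂ * hh S j x'))) := by
    simp only [Pi.sub_apply]
    unfold Fn fm
    ring
  rw [e, Real.norm_eq_abs, abs_mul]
  have h5 : |(eps T₁ * hh S j x - eps T₂ * hh S j x') +
        (q j ‖z‖ * av S j x - q j ‖z'‖ * av S j x') -
        (t + s) * (q j ‖z‖ * (eps T₁ * hh S j x) - q j ‖z'‖ * (eps T₂ * hh S j x'))| ≤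
      20 * D := by
    have h6 : |(t + s) * (q j ‖z‖ * (eps T₁ * hh S j x) - q j ‖z'‖ * (eps T₂ * hh S j x'))| ≤
        2 * (D + D) := by
      rw [abs_mul, abs_of_nonneg (add_nonneg ht.1 hs.1)]
      exact mul_le_mul (by linarith [ht.2, hs.2]) hQE (abs_nonneg _) (by norm_num)
    refine (abs_sub _ _).trans ?_
    have h7 := abs_add_le (eps T₁ * hh S j x - eps T₂ * hh S j x')
      (q j ‖z‖ * av S j x - q j ‖z'‖ * av S j x')
    linarith
  calc |t - s| * _ ≤ |t - s| * (20 * D) := mul_le_mul_of_nonneg_left h5 (abs_nonneg _)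
    _ = 20 * |t - s| * D := by ring

/-- UC-3e -/
theorem Fn_surj (n : ℕ) (hlow : ∀ t ∈ Icc (0 : ℝ) 1, ∀ z z' : Fin n → ℝ,
    ‖z - z'‖ ≤ 2 * n * ‖Fn S t n z - Fn S t n z'‖) : Function.Surjective (Fn S 1 n) := by
  rcases Nat.eq_zero_or_pos n with rfl | hn
  · intro y
    exact ⟨y, Subsingleton.elim _ _⟩
  have hn' : (0 : ℝ) < n := by exact_mod_cast hn
  have hκ : (0 : ℝ) < 1 / (2 * n) := by positivity
  obtain ⟨K, hK⟩ := exists_nat_gt (20 * (2 * (n : ℝ)))
  have hK0 : (0 : ℝ) < K := lt_trans (by positivity) hK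
  have hstep : ∀ k : ℕ, k ≤ K → Function.Surjective (Fn S ((k : ℝ) / K) n) := by
    intro k
    induction k with
    | zero =>
      intro _
      rw [Nat.cast_zero, zero_div]
      exact Fn_zero_surj n
    | succ k ih =>
      intro hk
      have hk' : (k : ℝ) + 1 ≤ K := by exact_mod_cast hk
      have hs : (k : ℝ) / K ∈ Icc (0 : ℝ) 1 :=
        ⟨by positivity, by rw [div_le_one hK0]; linarith⟩
      have ht : ((k + 1 : ℕ) : ℝ) / K ∈ Icc (0 : ℝ) 1 :=
        ⟨by positivity, by rw [div_le_one hK0]; push_cast; exact hk'⟩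
      have h1 := perturb_surj (Fn S ((k : ℝ) / K) n)
        (fun z => Fn S (((k + 1 : ℕ) : ℝ) / K) n z - Fn S ((k : ℝ) / K) n z)
        (κ := 1 / (2 * n)) (L := 20 * (1 / K)) hκ ?_ (ih (by omega)) ?_ ?_
      · have h2 : (fun x => Fn S ((k : ℝ) / K) n x +
            (Fn S (((k + 1 : ℕ) : ℝ) / K) n x - Fn S ((k : ℝ) / K) n x)) =
            Fn S (((k + 1 : ℕ) : ℝ) / K) n := by
          funext x
          abel
        rw [h2] at h1
        exact h1
      · intro x y
        have h2 := hlow _ hs x y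
        rw [one_div, inv_mul_le_iff₀ (by positivity)]
        exact h2
      · intro x y
        have h2 := Fn_t_lip (S := S) n hs ht x y
        have h3 : |((k + 1 : ℕ) : ℝ) / K - (k : ℝ) / K| = 1 / K := by
          rw [← sub_div]
          push_cast
          rw [add_sub_cancel_left, abs_of_pos (by positivity)]
        rw [h3] at h2
        exact h2
      · rw [mul_one_div, div_lt_div_iff₀ hK0 (by positivity)]
        linarith
  have h1 := hstep K le_rfl
  rw [div_self hK0.ne'] at h1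
  exact h1

end Pool.Helper60.UC
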