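import Pool.Agent.Helper60.UC.Main
import Pool.Agent.Helper60.UC.Surj

set_option autoImplicit false
noncomputable section
open Set Filter Topology

namespace Pool.Helper60.UC

variable {S : Sys}

/-- lower Lipschitz bound on the finite sections, uniform in `t` -/
theorem Fn_low (n : ℕ) : ∀ t ∈ Icc (0 : ℝ) 1, ∀ z z' : Fin n → ℝ,
    ‖z - z'‖ ≤ 2 * n * ‖Fn S t n z - Fn S t n z'‖ := by
  intro t ht z z'
  rcases (norm_nonneg (z - z')).eq_or_lt with h0 | hD
  · rw [← h0]; positivity
  set D := ‖z - z'‖ with hDdef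
  set δ := ‖Fn S t n z - Fn S t n z'‖ with hδdef
  have hxx : Bd D (fun i => ext S n z i - ext S n z' i) := by
    rw [ext_sub]; exact ext_bd n (z - z')
  have hf : ∀ j < n, |fm S t ‖z‖ (ext S n z) j - fm S t ‖z'‖ (ext S n z') j| ≤ δ := by
    intro j hj
    have := norm_le_pi_norm (Fn S t n z - Fn S t n z') ⟨j, hj⟩
    rw [Real.norm_eq_abs] at this
    exact this
  have hest := main_est (S := S) (v := fun j => (j : ℝ) + 1) (ext_bd (S := S) n z) (ext_bd (S := S) n z')
    (abs_norm_sub_norm_le z z') hD hxx ht (norm_nonneg _) hf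
    (fun j _ => by have := Nat.cast_nonneg (α := ℝ) j; linarith)
    (fun j _ i hi => by
      have he := ee_bd (S := S) (ext_bd (S := S) n z) (ext_bd (S := S) n z') j
      have h1 : (i : ℝ) + 1 ≤ j := by exact_mod_cast hi
      have h2 : 0 ≤ t * ee S (ext S n z) (ext S n z') j := mul_nonneg ht.1 he.1
      have h3 : (1 - t * ee S (ext S n z) (ext S n z') j) * ((i : ℝ) + 1) ≤ 1 * ((i : ℝ) + 1) :=
        mul_le_mul_of_nonneg_right (by linarith) (by positivity)
      linarith)
  have hle : D ≤ δ * n + D / 7 := by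
    rw [hDdef, pi_norm_le_iff_of_nonneg (by positivity)]
    intro j
    have h1 := hest j j.2
    rw [ext_lt n z j.2, ext_lt n z' j.2] at h1
    have h2 : (j : ℝ) + 1 ≤ n := by exact_mod_cast j.2
    have h3 : δ * ((j : ℝ) + 1) ≤ δ * n := mul_le_mul_of_nonneg_left h2 (norm_nonneg _)
    rw [Real.norm_eq_abs, Pi.sub_apply]
    exact h1.trans (by linarith)
  have : 0 ≤ δ * n := by positivity
  linarith

theorem Fn_surjective (n : ℕ) : Function.Surjective (Fn S 1 n) := Fn_surj n (Fn_low n)

/-- The lower bound at the level of tails. -/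
theorem low_aux {x x' : ℕ → ℝ} {r r' D δ : ℝ} {l : ℕ}
    (hx : Bd r x) (hx' : Bd r' x') (hrD : |r - r'| ≤ D) (hD : 0 < D)
    (hxx : Bd D (fun i => x i - x' i)) (hmin : ∀ μ, 0 ≤ μ → Bd μ (fun i => x i - x' i) → D ≤ μ)
    (hδ : 0 ≤ δ) (hl : T S l x ≤ D / 100) (hl' : T S l x' ≤ D / 100)
    (hlt : ∀ j < l, D / 100 < max (T S j x) (T S j x'))
    (hf : ∀ j < l + 1, |fm S 1 r x j - fm S 1 r' x' j| ≤ δ) :
    D ≤ 2 * δ * (1 + 1 / eps (D / 100)) := by
  set e := eps (D / 100) with hedef
  have he : 0 < e := eps_pos (by positivity)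
  have he1 : e ≤ 1 := (eps_le (by positivity)).trans (by norm_num)
  have h1e : 1 ≤ 1 / e := by rw [le_div_iff₀ he]; linarith
  have hest := main_est (S := S) (t := 1) (v := fun j => if j < l then 1 / e else 1 + 1 / e)
    hx hx' hrD hD hxx ⟨zero_le_one, le_rfl⟩ hδ hf
    (fun j _ => by split_ifs <;> linarith)
    (fun j hj i hi => by
      have hb := ee_bd (S := S) hx hx' j
      have hil : i < l := by omega
      rw [if_pos hil, one_mul]
      split_ifs with hjl
      · have h1 : e ≤ ee S x x' j := eps_mono (by positivity) (hlt j hjl).le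
        have h2 : (1 - ee S x x' j) * (1 / e) ≤ (1 - e) * (1 / e) :=
          mul_le_mul_of_nonneg_right (by linarith) (by positivity)
        have h3 : (1 - e) * (1 / e) = 1 / e - 1 := by field_simp
        linarith
      · have h2 : (1 - ee S x x' j) * (1 / e) ≤ 1 * (1 / e) :=
          mul_le_mul_of_nonneg_right (by linarith [hb.1]) (by positivity)
        linarith)
  have hall : ∀ j < l + 1, |x j - x' j| ≤ δ * (1 + 1 / e) + D / 7 := by
    intro j hj
    refine (hest j hj).trans ?_
    have : (if j < l then 1 / e else 1 + 1 / e) ≤ 1 + 1 / e := by split_ifs <;> linarith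
    have := mul_le_mul_of_nonneg_left this hδ
    linarith
  have hμ : 0 ≤ δ * (1 + 1 / e) + D / 7 := by positivity
  have hP : Bd (δ * (1 + 1 / e) + D / 7) (P S (l + 1) (fun i => x i - x' i)) := P_bd hμ hall
  have hfin : D ≤ δ * (1 + 1 / e) + D / 7 + (D / 100 + D / 100) := by
    refine hmin _ (by positivity) (fun k => ?_)
    have h1 := hP k
    have h2 := le_T (S := S) hx (Nat.lt_succ_self l) k
    have h3 := le_T (S := S) hx' (Nat.lt_succ_self l) k
    rw [P_sub] at h1
    have e1 : x k - x' k = (P S (l + 1) x k - P S (l + 1) x' k) +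
        ((x k - P S (l + 1) x k) - (x' k - P S (l + 1) x' k)) := by ring
    show |x k - x' k| ≤ _
    rw [e1]
    refine (abs_add_le _ _).trans (add_le_add h1 ?_)
    exact (abs_sub _ _).trans (add_le_add (h2.trans hl) (h3.trans hl'))
  have : 0 ≤ δ * (1 + 1 / e) := by positivity
  linarith

end Pool.Helper60.UC
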