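import Pool.Agent.Helper60.UC.Diff

set_option autoImplicit false
noncomputable section
open Set Filter Topology

namespace Pool.Helper60.UC

variable {S : Sys}

lemma ee_le_sc {x x' : ℕ → ℝ} {r r' D : ℝ} (hx : Bd r x) (hx' : Bd r' x') (hD : 0 < D)
    (hxx : Bd D (fun i => x i - x' i)) (j : ℕ) : ee S x x' j ≤ eps (201 * sc S D x j) := by
  have hT := T_nonneg (S := S) hx j
  have hT' := T_nonneg (S := S) hx' j
  have hd := abs_le.mp (T_diff (S := S) hx hx' hxx j)
  have h1 : T S j x ≤ sc S D x j := le_max_left _ _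
  have h2 : D / 100 ≤ sc S D x j := le_max_right _ _
  unfold ee
  apply eps_mono (hT.trans (le_max_left _ _))
  exact max_le (by linarith) (by linarith)

lemma ee_bd {x x' : ℕ → ℝ} {r r' : ℝ} (hx : Bd r x) (_hx' : Bd r' x') (j : ℕ) :
    0 ≤ ee S x x' j ∧ ee S x x' j ≤ 1 / 2 ^ 20 := by
  have hT := T_nonneg (S := S) hx j
  unfold ee
  exact ⟨eps_nonneg (hT.trans (le_max_left _ _)), eps_le (hT.trans (le_max_left _ _))⟩

open Classical in
lemma main_est_aux {x x' : ℕ → ℝ} {r r' D δ t : ℝ} {n : ℕ} {v : ℕ → ℝ}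
    (hx : Bd r x) (hx' : Bd r' x') (hrr : r' ≤ r) (hrD : r - r' ≤ D) (hD : 0 < D)
    (hxx : Bd D (fun i => x i - x' i)) (ht : t ∈ Icc (0 : ℝ) 1) (hδ : 0 ≤ δ)
    (hf : ∀ j < n, |fm S t r x j - fm S t r' x' j| ≤ δ)
    (hv1 : ∀ j < n, 1 ≤ v j)
    (hv2 : ∀ j < n, ∀ i < j, 1 + (1 - t * ee S x x' j) * v i ≤ v j) :
    ∀ j < n, |x j - x' j| ≤ δ * v j + (1 / 2 ^ 8 - 2 / 2 ^ (j + 10)) * D +
      (4 / 64 + 4 / 100) * D + 5 * D * (W S D r x j + W S D r x' j) := by
  have hx'r : Bd r x' := fun j => (hx' j).trans hrr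
  intro j
  induction j using Nat.strong_induction_on with
  | _ j ih =>
    intro hj
    have hmain := diff_ineq hx hx' hrr hrD hD hxx ht (hf j hj)
    obtain ⟨he0, he1⟩ := ee_bd (S := S) hx hx' j
    have hxx' : Bd D (fun i => x' i - x i) := fun i => by rw [abs_sub_comm]; exact hxx i
    have hW1 := W_super (S := S) (j := j) hx hD ht he0 he1 (ee_le_sc hx hx' hD hxx j)
    have hW2 := W_super (S := S) (j := j) hx'r hD ht he0 he1
      (by rw [ee_comm]; exact ee_le_sc hx' hx hD hxx' j)
    have hi1 : (if Lp S D x j then (1 : ℝ) else 0) = ind S D x j := rfl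
    have hi2 : (if Lp S D x' j then (1 : ℝ) else 0) = ind S D x' j := rfl
    rw [hi1] at hW1
    rw [hi2] at hW2
    set e := ee S x x' j with hedef
    set Q := q j r with hQdef
    have hte0 : 0 ≤ t * e := mul_nonneg ht.1 he0
    have hte1 : t * e ≤ 1 := by
      calc t * e ≤ 1 * (1 / 2 ^ 20) := mul_le_mul ht.2 he1 he0 zero_le_one
        _ ≤ 1 := by norm_num
    have htq0 : 0 ≤ 1 - t * Q := by
      have := mul_le_mul ht.2 (q_le_one j r) (q_nonneg j r) zero_le_one
      linarith
    have htq1 : 1 - t * Q ≤ 1 := by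
      have := mul_nonneg ht.1 (q_nonneg j r)
      linarith
    -- the constant part
    set C := δ * (v j - 1) + (1 / 2 ^ 8 - 2 / 2 ^ (j + 10) - 2 / 2 ^ (j + 10)) * D +
      (1 - t * e) * ((4 / 64 + 4 / 100) * D) with hC
    have hpow : (2 : ℝ) / 2 ^ (j + 10) ≤ 2 / 2 ^ 10 := by
      apply div_le_div_of_nonneg_left (by norm_num) (by positivity)
      exact pow_le_pow_right₀ (by norm_num) (by omega)
    have hC0 : 0 ≤ C := by
      have h1 : 0 ≤ δ * (v j - 1) := mul_nonneg hδ (by linarith [hv1 j hj])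
      have h2 : 0 ≤ (1 / 2 ^ 8 - 2 / 2 ^ (j + 10) - 2 / 2 ^ (j + 10)) * D := by
        apply mul_nonneg _ hD.le
        have : (2 : ℝ) / 2 ^ 10 + 2 / 2 ^ 10 ≤ 1 / 2 ^ 8 := by norm_num
        linarith
      have h3 : 0 ≤ (1 - t * e) * ((4 / 64 + 4 / 100) * D) :=
        mul_nonneg (by linarith) (by positivity)
      linarith
    have hav : (1 - t * e) * av S j (fun i => |x i - x' i|) ≤
        C + 5 * D * (av S j (W S D r x) + av S j (W S D r x')) := by
      rw [← av_smul]
      have h1 : av S j (fun i => (1 - t * e) * |x i - x' i|) ≤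
          av S j (fun i => C + 5 * D * (W S D r x i + W S D r x' i)) := by
        refine av_mono (fun i hi => ?_)
        have hij := S.ch_lt hi
        have hi' := ih i hij (hij.trans hj)
        have hw1 := W_nonneg (S := S) (x := x) (r := r) hD i
        have hw2 := W_nonneg (S := S) (x := x') (r := r) hD i
        have hvi := hv2 j hj i hij
        have h2 : (2 : ℝ) / 2 ^ (j + 10) + 2 / 2 ^ (j + 10) ≤ 2 / 2 ^ (i + 10) := by
          have h3 : (2 : ℝ) ^ (i + 10) * 2 ≤ 2 ^ (j + 10) := by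
            rw [← pow_succ]
            exact pow_le_pow_right₀ (by norm_num) (by omega)
          rw [← add_div, div_le_div_iff₀ (by positivity) (by positivity)]
          nlinarith
        have h4 : (1 - t * e) * |x i - x' i| ≤ (1 - t * e) * (δ * v i +
            (1 / 2 ^ 8 - 2 / 2 ^ (i + 10)) * D + (4 / 64 + 4 / 100) * D +
            5 * D * (W S D r x i + W S D r x' i)) :=
          mul_le_mul_of_nonneg_left hi' (by linarith)
        have h5 : (1 - t * e) * (δ * v i) ≤ δ * (v j - 1) := by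
          have := mul_le_mul_of_nonneg_left hvi hδ
          nlinarith
        have h6 : (1 - t * e) * ((1 / 2 ^ 8 - 2 / 2 ^ (i + 10)) * D) ≤
            (1 / 2 ^ 8 - 2 / 2 ^ (j + 10) - 2 / 2 ^ (j + 10)) * D := by
          have h7 : 0 ≤ (1 / 2 ^ 8 - 2 / 2 ^ (i + 10)) * D := by
            apply mul_nonneg _ hD.le
            have h8 : (2 : ℝ) / 2 ^ (i + 10) ≤ 2 / 2 ^ 10 := by
              apply div_le_div_of_nonneg_left (by norm_num) (by positivity)
              exact pow_le_pow_right₀ (by norm_num) (by omega)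
            have : (2 : ℝ) / 2 ^ 10 ≤ 1 / 2 ^ 8 := by norm_num
            linarith
          calc _ ≤ 1 * ((1 / 2 ^ 8 - 2 / 2 ^ (i + 10)) * D) :=
                mul_le_mul_of_nonneg_right (by linarith) h7
            _ ≤ _ := by
                rw [one_mul]
                exact mul_le_mul_of_nonneg_right (by linarith) hD.le
        have h9 : (1 - t * e) * (5 * D * (W S D r x i + W S D r x' i)) ≤
            5 * D * (W S D r x i + W S D r x' i) := by
          have : 0 ≤ 5 * D * (W S D r x i + W S D r x' i) := by positivity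
          calc _ ≤ 1 * (5 * D * (W S D r x i + W S D r x' i)) :=
                mul_le_mul_of_nonneg_right (by linarith) this
            _ = _ := one_mul _
        rw [hC]
        linarith
      refine h1.trans ?_
      have h2 : av S j (fun i => C + 5 * D * (W S D r x i + W S D r x' i)) =
          av S j (fun _ => C) + 5 * D * (av S j (W S D r x) + av S j (W S D r x')) := by
        rw [av_add j (fun _ => C) (fun i => 5 * D * (W S D r x i + W S D r x' i)),
          av_smul j (5 * D) (fun i => W S D r x i + W S D r x' i),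
          av_add j (W S D r x) (W S D r x')]
      rw [h2]
      have h3 : av S j (fun _ => C) ≤ C := av_le hC0 (fun _ _ => le_rfl)
      linarith
    have hfin : (1 - t * Q) * ((1 - t * e) * av S j (fun i => |x i - x' i|)) ≤
        C + 5 * D * ((1 - t * Q) * av S j (W S D r x) + (1 - t * Q) * av S j (W S D r x')) := by
      calc _ ≤ (1 - t * Q) * (C + 5 * D * (av S j (W S D r x) + av S j (W S D r x'))) :=
            mul_le_mul_of_nonneg_left hav htq0
        _ = (1 - t * Q) * C + 5 * D * ((1 - t * Q) * av S j (W S D r x) +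
            (1 - t * Q) * av S j (W S D r x')) := by ring
        _ ≤ _ := by
            have := mul_le_mul_of_nonneg_right htq1 hC0
            linarith
    have h5 : 5 * D * ((t * e * ind S D x j + (1 - t * Q) * av S j (W S D r x)) +
        (t * e * ind S D x' j + (1 - t * Q) * av S j (W S D r x'))) ≤
        5 * D * (W S D r x j + W S D r x' j) :=
      mul_le_mul_of_nonneg_left (add_le_add hW1 hW2) (by positivity)
    rw [hC] at hfin
    linarith

/-- The main estimate. -/
theorem main_est {x x' : ℕ → ℝ} {r r' D δ t : ℝ} {n : ℕ} {v : ℕ → ℝ}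
    (hx : Bd r x) (hx' : Bd r' x') (hrD : |r - r'| ≤ D) (hD : 0 < D)
    (hxx : Bd D (fun i => x i - x' i)) (ht : t ∈ Icc (0 : ℝ) 1) (hδ : 0 ≤ δ)
    (hf : ∀ j < n, |fm S t r x j - fm S t r' x' j| ≤ δ)
    (hv1 : ∀ j < n, 1 ≤ v j)
    (hv2 : ∀ j < n, ∀ i < j, 1 + (1 - t * ee S x x' j) * v i ≤ v j) :
    ∀ j < n, |x j - x' j| ≤ δ * v j + D / 7 := by
  have key : ∀ {x x' : ℕ → ℝ} {r r' : ℝ}, Bd r x → Bd r' x' → r' ≤ r → r - r' ≤ D →
      Bd D (fun i => x i - x' i) → (∀ j < n, |fm S t r x j - fm S t r' x' j| ≤ δ) →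
      (∀ j < n, ∀ i < j, 1 + (1 - t * ee S x x' j) * v i ≤ v j) →
      ∀ j < n, |x j - x' j| ≤ δ * v j + D / 7 := by
    intro x x' r r' hx hx' hrr hrD hxx hf hv2 j hj
    have h := main_est_aux hx hx' hrr hrD hD hxx ht hδ hf hv1 hv2 j hj
    have h1 := W_le (S := S) (x := x) (r := r) hD j
    have h2 := W_le (S := S) (x := x') (r := r) hD j
    have h3 : 5 * D * (W S D r x j + W S D r x' j) ≤ 5 * D * (Wmax + Wmax) :=
      mul_le_mul_of_nonneg_left (add_le_add h1 h2) (by positivity)
    have h4 : 0 ≤ (2 / 2 ^ (j + 10)) * D := by positivity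
    unfold Wmax at h3
    have h5 : (1 / 2 ^ 8 - 2 / 2 ^ (j + 10)) * D = 1 / 2 ^ 8 * D - (2 / 2 ^ (j + 10)) * D := by
      ring
    rw [h5] at h
    have h6 : (1 / 2 ^ 8) * D + (4 / 64 + 4 / 100) * D + 5 * D * (2054 / 2 ^ 20 + 2054 / 2 ^ 20) ≤
        D / 7 := by
      have : (1 / 2 ^ 8) * D + (4 / 64 + 4 / 100) * D + 5 * D * (2054 / 2 ^ 20 + 2054 / 2 ^ 20) =
          (1 / 2 ^ 8 + (4 / 64 + 4 / 100) + 5 * (2054 / 2 ^ 20 + 2054 / 2 ^ 20)) * D := by ring
      rw [this]
      have h7 : (1 / 2 ^ 8 + (4 / 64 + 4 / 100) + 5 * (2054 / 2 ^ 20 + 2054 / 2 ^ 20) : ℝ) ≤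
          1 / 7 := by norm_num
      calc _ ≤ 1 / 7 * D := mul_le_mul_of_nonneg_right h7 hD.le
        _ = D / 7 := by ring
    linarith
  rcases le_total r' r with h | h
  · rw [abs_of_nonneg (by linarith)] at hrD
    exact key hx hx' h hrD hxx hf hv2
  · rw [abs_of_nonpos (by linarith)] at hrD
    intro j hj
    rw [abs_sub_comm]
    refine key hx' hx h (by linarith) (fun i => by rw [abs_sub_comm]; exact hxx i)
      (fun j hj => by rw [abs_sub_comm]; exact hf j hj) (fun j hj i hi => ?_) j hj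
    rw [ee_comm]; exact hv2 j hj i hi

end Pool.Helper60.UC
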