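import Pool.Agent.Helper60.UC.Low

set_option autoImplicit false
noncomputable section
open Set Filter Topology

namespace Pool.Helper60.UC

variable {S : Sys}

abbrev C0 := ZeroAtInftyContinuousMap ℕ ℝ

/-- null sequences as elements of `C0` -/
def mk0 (z : ℕ → ℝ) (h : Tendsto z atTop (𝓝 0)) : C0 where
  toFun := z
  continuous_toFun := continuous_of_discreteTopology
  zero_at_infty' := by
    rw [cocompact_eq_cofinite, Nat.cofinite_eq_atTop]; exact h

@[simp] lemma mk0_apply (z : ℕ → ℝ) (h : Tendsto z atTop (𝓝 0)) (j : ℕ) : mk0 z h j = z j := rfl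

lemma C0_tendsto (c : C0) : Tendsto (fun j => c j) atTop (𝓝 0) := by
  have := c.zero_at_infty'
  rw [cocompact_eq_cofinite, Nat.cofinite_eq_atTop] at this
  exact this

lemma C0_norm_le {c : C0} {r : ℝ} (hr : 0 ≤ r) (h : ∀ j, |c j| ≤ r) : ‖c‖ ≤ r := by
  rw [← ZeroAtInftyContinuousMap.norm_toBCF_eq_norm, BoundedContinuousFunction.norm_le hr]
  intro j
  simpa [Real.norm_eq_abs] using h j

lemma C0_abs_le (c : C0) (j : ℕ) : |c j| ≤ ‖c‖ := by
  rw [← ZeroAtInftyContinuousMap.norm_toBCF_eq_norm, ← Real.norm_eq_abs]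
  exact c.toBCF.norm_coe_le_norm j

lemma pred_le {x : ℕ → ℝ} {r : ℝ} (hx : Bd r x) {j : ℕ} (hj : 1 ≤ j) :
    |x j - av S j x| ≤ T S (j - 1) x := by
  have h := le_T (S := S) hx (show j - 1 < j by omega) j
  rw [P_ge le_rfl] at h
  rwa [av_congr (fun i hi => P_lt (S.ch_lt hi) x)] at h

/-- size of the code at coordinates coded by default -/
lemma fm_le {x : ℕ → ℝ} {r : ℝ} (hx : Bd r x) {j : ℕ} (hj : 1 ≤ j) (hq : q j r = 0) :
    |fm S 1 r x j| ≤ T S (j - 1) x + 2 * T S j x := by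
  have hT := T_nonneg (S := S) hx j
  have h1 := pred_le (S := S) hx hj
  have h2 := hh_bd (S := S) hx j
  have h3 := eps_nonneg hT
  have h4 : eps (T S j x) ≤ 1 := (eps_le hT).trans (by norm_num)
  have e : fm S 1 r x j = (x j - av S j x) + eps (T S j x) * hh S j x := by
    unfold fm; rw [hq]; ring
  rw [e]
  refine (abs_add_le _ _).trans (add_le_add h1 ?_)
  rw [abs_mul, abs_of_nonneg h3]
  calc eps (T S j x) * |hh S j x| ≤ 1 * (2 * T S j x) :=
        mul_le_mul h4 h2 (abs_nonneg _) zero_le_one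
    _ = _ := one_mul _

lemma fm_tendsto (x : XS S) :
    Tendsto (fun j => fm S 1 ‖x‖ ((x : Bs) : ℕ → ℝ) j) atTop (𝓝 0) := by
  have hx : Bd ‖x‖ ((x : Bs) : ℕ → ℝ) := bd_norm _
  have h1 := XS_tendsto x
  have h2 : Tendsto (fun j => T S (j - 1) (x : Bs)) atTop (𝓝 0) :=
    h1.comp (tendsto_sub_atTop_nat 1)
  have h3 : Tendsto (fun j => T S (j - 1) (x : Bs) + 2 * T S j (x : Bs)) atTop (𝓝 0) := by
    simpa using h2.add (h1.const_mul 2)
  rw [tendsto_zero_iff_abs_tendsto_zero]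
  refine tendsto_of_tendsto_of_tendsto_of_le_of_le' tendsto_const_nhds h3
    (Eventually.of_forall fun j => abs_nonneg _) ?_
  obtain ⟨m, hm⟩ := pow_unbounded_of_one_lt ‖x‖ (show (1 : ℝ) < 2 by norm_num)
  filter_upwards [eventually_ge_atTop (m + 1)] with j hj
  refine fm_le hx (by omega) (q_zero (norm_nonneg x) ?_)
  exact hm.le.trans (pow_le_pow_right₀ (by norm_num) (by omega))

/-- the map `X → C0` -/
def fX (S : Sys) (x : XS S) : C0 := mk0 (fm S 1 ‖x‖ ((x : Bs) : ℕ → ℝ)) (fm_tendsto x)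

lemma fX_apply (x : XS S) (j : ℕ) : fX S x j = fm S 1 ‖x‖ ((x : Bs) : ℕ → ℝ) j := rfl

lemma XS_bd (x : XS S) : Bd ‖x‖ ((x : Bs) : ℕ → ℝ) := bd_norm _

lemma XS_bd_sub (x x' : XS S) : Bd ‖x - x'‖ (fun i => (x : Bs) i - (x' : Bs) i) :=
  bd_norm ((x - x' : XS S) : Bs)

lemma fm_lip {x x' : ℕ → ℝ} {r r' D : ℝ} (hx : Bd r x) (hx' : Bd r' x') (hrr : r' ≤ r)
    (hrD : r - r' ≤ D) (hD : 0 < D) (hxx : Bd D (fun i => x i - x' i)) (j : ℕ) :
    |fm S 1 r x j - fm S 1 r' x' j| ≤ 4 * D := by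
  have ht : (1 : ℝ) ∈ Icc (0 : ℝ) 1 := ⟨zero_le_one, le_rfl⟩
  have hr' : 0 ≤ r' := (abs_nonneg _).trans (hx' 0)
  obtain ⟨he0, he1⟩ := ee_bd (S := S) hx hx' j
  have e1 : fm S 1 r x j - fm S 1 r' x' j = (x j - x' j) -
      (1 - 1 * q j r) * (gg S 1 j x - gg S 1 j x') -
      1 * (q j r' - q j r) * gg S 1 j x' := by
    rw [fm_eq, fm_eq]; ring
  have h0 : |x j - x' j| ≤ D := hxx j
  have h1 : |1 * (q j r' - q j r) * gg S 1 j x'| ≤ (1 / 2) * D := by
    rw [abs_mul, abs_mul, abs_one, abs_sub_comm]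
    have hb := gg_bd (S := S) hx' ht j
    have hq := q_diff (j := j) hr' hrr
    have hp : (2 : ℝ) / 2 ^ (j + 10) ≤ 1 / 2 := by
      rw [div_le_div_iff₀ (by positivity) (by norm_num)]
      have : (2 : ℝ) ^ 2 ≤ 2 ^ (j + 10) := pow_le_pow_right₀ (by norm_num) (by omega)
      linarith
    calc 1 * |q j r - q j r'| * |gg S 1 j x'| ≤ 1 * |q j r - q j r'| * r' :=
          mul_le_mul_of_nonneg_left hb (by positivity)
      _ = |q j r - q j r'| * r' := by ring
      _ ≤ (2 / 2 ^ (j + 10)) * (r - r') := hq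
      _ ≤ (1 / 2) * D := mul_le_mul hp hrD (by linarith) (by norm_num)
  have h2 : |gg S 1 j x - gg S 1 j x'| ≤ 2 * D := by
    refine (gg_diff hx hx' hD hxx ht j (S := S)).trans ?_
    have h3 : av S j (fun i => |x i - x' i|) ≤ D := av_le hD.le (fun i _ => hxx i)
    have h4 : 0 ≤ av S j (fun i => |x i - x' i|) := av_nonneg (fun i _ => abs_nonneg _)
    have h5 : ind S D x j + ind S D x' j ≤ 2 := by
      unfold ind; split_ifs <;> norm_num
    have h6 : (1 - 1 * ee S x x' j) * av S j (fun i => |x i - x' i|) ≤ 1 * D :=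
      mul_le_mul (by linarith) h3 h4 zero_le_one
    have h7 : 1 * ee S x x' j * ((4 / 64 + 4 / 100) * D) ≤
        (1 / 2 ^ 20) * ((4 / 64 + 4 / 100) * D) :=
      mul_le_mul_of_nonneg_right (by linarith) (by positivity)
    have h8 : 5 * (1 * ee S x x' j) * D * (ind S D x j + ind S D x' j) ≤
        5 * (1 / 2 ^ 20) * D * 2 := by
      apply mul_le_mul _ h5 (add_nonneg ind_nonneg ind_nonneg) (by positivity)
      exact mul_le_mul_of_nonneg_right (by linarith) hD.le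
    linarith
  have h3 : |(1 - 1 * q j r) * (gg S 1 j x - gg S 1 j x')| ≤ 2 * D := by
    rw [abs_mul, abs_of_nonneg (by linarith [q_le_one j r])]
    calc (1 - 1 * q j r) * |gg S 1 j x - gg S 1 j x'| ≤ 1 * (2 * D) :=
          mul_le_mul (by linarith [q_nonneg j r]) h2 (abs_nonneg _) zero_le_one
      _ = _ := one_mul _
  rw [e1]
  refine (abs_sub _ _).trans ?_
  refine (add_le_add (abs_sub _ _) le_rfl).trans ?_
  linarith

lemma fX_lip (x x' : XS S) : ‖fX S x - fX S x'‖ ≤ 4 * ‖x - x'‖ := by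
  have key : ∀ x x' : XS S, ‖x'‖ ≤ ‖x‖ → ‖fX S x - fX S x'‖ ≤ 4 * ‖x - x'‖ := by
    intro x x' h
    rcases (norm_nonneg (x - x')).eq_or_lt with h0 | hD
    · have : x = x' := sub_eq_zero.mp (norm_eq_zero.mp h0.symm)
      subst this
      simp
    refine C0_norm_le (by positivity) (fun j => ?_)
    exact fm_lip (XS_bd x) (XS_bd x') h (norm_sub_norm_le x x') hD (XS_bd_sub x x') j
  rcases le_total ‖x'‖ ‖x‖ with h | h
  · exact key x x' h
  · rw [norm_sub_rev, norm_sub_rev x]; exact key x' x h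

/-- the lower bound on `X` -/
lemma fX_low {x x' : XS S} (h : x ≠ x') :
    ‖x - x'‖ ≤ 2 * ‖fX S x - fX S x'‖ * (1 + 1 / eps (‖x - x'‖ / 100)) := by
  have hD : 0 < ‖x - x'‖ := norm_pos_iff.mpr (sub_ne_zero.mpr h)
  set D := ‖x - x'‖ with hDdef
  have hex : ∃ l, T S l (x : Bs) ≤ D / 100 ∧ T S l (x' : Bs) ≤ D / 100 := by
    have h1 := (XS_tendsto x).eventually (gt_mem_nhds (show 0 < D / 100 by positivity))
    have h2 := (XS_tendsto x').eventually (gt_mem_nhds (show 0 < D / 100 by positivity))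
    obtain ⟨l, hl⟩ := (h1.and h2).exists
    exact ⟨l, hl.1.le, hl.2.le⟩
  classical
  refine low_aux (l := Nat.find hex) (XS_bd x) (XS_bd x') (abs_norm_sub_norm_le x x') hD
    (XS_bd_sub x x') ?_ (norm_nonneg _) (Nat.find_spec hex).1 (Nat.find_spec hex).2 ?_ ?_
  · intro μ hμ hb
    exact norm_le_of_bd (x := ((x - x' : XS S) : Bs)) hμ hb
  · intro j hj
    have := Nat.find_min hex hj
    by_contra hc
    push Not at hc
    exact this ⟨(le_max_left _ _).trans hc, (le_max_right _ _).trans hc⟩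
  · intro j _
    exact C0_abs_le (fX S x - fX S x') j

end Pool.Helper60.UC
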