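import Pool.Agent.Helper60.UC.Space

set_option autoImplicit false
noncomputable section
open Set Filter Topology

namespace Pool.Helper60.UC

variable {S : Sys}

/-- the basis vector of the state `j`: `δ_j` continued harmonically beyond `j` -/
def ev (S : Sys) (j : ℕ) : ℕ → ℝ := P S (j + 1) (fun i => if i = j then 1 else 0)

/-- UC-2a: elementary facts on the vectors `ev j` -/
theorem ev_self (j : ℕ) : ev S j j = 1 := by
  unfold ev
  rw [P_lt (Nat.lt_succ_self j), if_pos rfl]

theorem ev_bd (j : ℕ) : Bd 1 (ev S j) := by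
  unfold ev
  refine P_bd zero_le_one (fun i _ => ?_)
  split_ifs
  · simp
  · simp

/-- `ev j` vanishes at `k` unless `lo k ≤ j ≤ k` -/
theorem ev_zero {j k : ℕ} (h : j < S.lo k ∨ k < j) : ev S j k = 0 := by
  unfold ev
  rcases h with h | h
  · exact P_zero h _
  · rw [P_lt (Nat.lt_succ_of_lt h), if_neg h.ne]

/-- for `k ≠ j` the value at `k` is the average over the children -/
theorem ev_av {j k : ℕ} (h : k ≠ j) : ev S j k = av S k (ev S j) := by
  rcases lt_or_gt_of_ne h with h1 | h1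
  · rw [ev_zero (Or.inr h1)]
    exact (av_eq_zero (fun i hi => ev_zero (Or.inr ((S.ch_lt hi).trans h1)))).symm
  · exact P_ge h1 _

/-- the vector as an element of `X` -/
def evX (S : Sys) (j : ℕ) : XS S :=
  ⟨mkB (ev S j) 1 (ev_bd j), mem_XS_of_P (n := j + 1) (by
    show P S (j + 1) (ev S j) = ev S j
    exact P_P le_rfl _)⟩

/-- UC-2b: signed sums over states with the same set of children have norm at most one -/
theorem norm_sum_copies (B : Finset ℕ) (F : Finset ℕ) (hF : ∀ j ∈ F, S.ch j = B) (θ : ℕ → ℝ)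
    (hθ : ∀ j, |θ j| ≤ 1) : ‖∑ j ∈ F, θ j • evX S j‖ ≤ 1 := by
  classical
  have hz : ∀ k, (((∑ j ∈ F, θ j • evX S j : XS S) : Bs) k) = ∑ j ∈ F, θ j * ev S j k := by
    intro k
    have h1 : (XS S).subtype (∑ j ∈ F, θ j • evX S j) = ∑ j ∈ F, (XS S).subtype (θ j • evX S j) :=
      map_sum _ _ _
    have h2 : (((∑ j ∈ F, θ j • evX S j : XS S) : Bs) k)
        = (∑ j ∈ F, (XS S).subtype (θ j • evX S j)) k := congrArg (fun z : Bs => z k) h1
    rw [h2, BoundedContinuousFunction.sum_apply]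
    rfl
  have hharm : ∀ k, k ∉ F → (∑ j ∈ F, θ j * ev S j k)
      = av S k (fun i => ∑ j ∈ F, θ j * ev S j i) := by
    intro k hk
    have h1 : ∀ j ∈ F, θ j * ev S j k = θ j * av S k (ev S j) := by
      intro j hj
      rw [← ev_av (fun h => hk (by rw [h]; exact hj))]
    rw [Finset.sum_congr rfl h1]
    unfold av
    rw [Finset.sum_comm, Finset.sum_div]
    refine Finset.sum_congr rfl (fun j _ => ?_)
    rw [← Finset.mul_sum, mul_div_assoc]
  have hbd : Bd 1 (fun k => ∑ j ∈ F, θ j * ev S j k) := by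
    intro k
    induction k using Nat.strong_induction_on with
    | _ k ih =>
      by_cases hk : k ∈ F
      · have h1 : ∑ j ∈ F, θ j * ev S j k = θ k * ev S k k := by
          refine Finset.sum_eq_single_of_mem k hk (fun j hj hjk => ?_)
          have h2 : ev S j k = 0 := by
            rw [ev_av hjk.symm]
            refine av_eq_zero (fun i hi => ev_zero (Or.inr ?_))
            rw [hF k hk, ← hF j hj] at hi
            exact S.ch_lt hi
          rw [h2, mul_zero]
        show |∑ j ∈ F, θ j * ev S j k| ≤ 1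
        rw [h1, ev_self, mul_one]
        exact hθ k
      · show |∑ j ∈ F, θ j * ev S j k| ≤ 1
        rw [hharm k hk]
        exact abs_av_le_of zero_le_one (fun i hi => ih i (S.ch_lt hi))
  refine norm_le_of_bd zero_le_one ?_
  intro k
  have h1 := hbd k
  have h2 : |∑ j ∈ F, θ j * ev S j k| ≤ 1 := h1
  rw [← hz k] at h2
  exact h2

/-- UC-2c: a bounded linear functional is small on all but finitely many copies -/
theorem functional_small (g : XS S →L[ℝ] ℝ) (B : Finset ℕ) {η : ℝ} (hη : 0 < η) :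
    {j | S.ch j = B ∧ η ≤ |g (evX S j)|}.Finite := by
  classical
  by_contra hinf
  have hinf' : {j | S.ch j = B ∧ η ≤ |g (evX S j)|}.Infinite := hinf
  obtain ⟨C, hCb⟩ : ∃ C : ℝ, ∀ z : XS S, ‖z‖ ≤ 1 → |g z| ≤ C := by
    obtain ⟨δ, hδ, h⟩ := Metric.continuousAt_iff.mp (g.continuous.continuousAt (x := 0)) 1 one_pos
    refine ⟨2 / δ, fun z hz => ?_⟩
    have h0 : dist ((δ / 2) • (z : Bs)) 0 < δ := by
      have hz' : ‖(z : Bs)‖ ≤ 1 := hz
      rw [dist_zero_right, norm_smul, Real.norm_of_nonneg (by positivity)]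
      nlinarith [norm_nonneg (z : Bs)]
    have h1 : dist ((δ / 2) • z) 0 < δ := h0
    have h2 := h h1
    rw [map_zero, map_smul, dist_zero_right, norm_smul, Real.norm_of_nonneg (by positivity),
      Real.norm_eq_abs] at h2
    rw [le_div_iff₀ hδ]
    linarith
  obtain ⟨n, hn⟩ := exists_nat_gt (C / η)
  obtain ⟨F, hFs, hFc⟩ := hinf'.exists_subset_card_eq n
  have hF : ∀ j ∈ F, S.ch j = B := fun j hj => (hFs hj).1
  have hF2 : ∀ j ∈ F, η ≤ |g (evX S j)| := fun j hj => (hFs hj).2
  have hsgn : ∀ j, |(fun j => ((SignType.sign (g (evX S j)) : SignType) : ℝ)) j| ≤ 1 := by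
    intro j
    show |((SignType.sign (g (evX S j)) : SignType) : ℝ)| ≤ 1
    rcases lt_trichotomy (g (evX S j)) 0 with h | h | h
    · simp [sign_neg h]
    · simp [h]
    · simp [sign_pos h]
  have h1 := norm_sum_copies (S := S) B F hF
    (fun j => ((SignType.sign (g (evX S j)) : SignType) : ℝ)) hsgn
  have h2 : g (∑ j ∈ F, ((SignType.sign (g (evX S j)) : SignType) : ℝ) • evX S j)
      = ∑ j ∈ F, |g (evX S j)| := by
    rw [map_sum]
    refine Finset.sum_congr rfl (fun j _ => ?_)
    rw [map_smul, smul_eq_mul, sign_mul_self]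
  have h3 : (n : ℝ) * η ≤ ∑ j ∈ F, |g (evX S j)| := by
    calc (n : ℝ) * η = ∑ _j ∈ F, η := by rw [Finset.sum_const, hFc, nsmul_eq_mul]
      _ ≤ _ := Finset.sum_le_sum hF2
  have h4 := hCb (∑ j ∈ F, ((SignType.sign (g (evX S j)) : SignType) : ℝ) • evX S j) h1
  rw [h2] at h4
  have h5 : ∑ j ∈ F, |g (evX S j)| ≤ C := (le_abs_self _).trans h4
  rw [div_lt_iff₀ hη] at hn
  linarith

end Pool.Helper60.UC
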