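import Pool.Agent.Helper60.UC.NotIso

set_option autoImplicit false
noncomputable section
open Set Filter Topology

namespace Pool.Helper60.UC

variable {S : Sys}

namespace Hump

/-- evaluation of a function vanishing at infinity -/
def evalC (i : ℕ) : ZeroAtInftyContinuousMap ℕ ℝ →L[ℝ] ℝ :=
  LinearMap.mkContinuous
    { toFun := fun f => f i
      map_add' := fun _ _ => rfl
      map_smul' := fun _ _ => rfl } 1 (fun f => by
    rw [one_mul]
    exact f.toBCF.norm_coe_le_norm i)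

theorem evalC_apply (i : ℕ) (f : ZeroAtInftyContinuousMap ℕ ℝ) : evalC i f = f i := rfl

theorem norm_le' {f : ZeroAtInftyContinuousMap ℕ ℝ} {C : ℝ} (hC : 0 ≤ C)
    (h : ∀ i, |f i| ≤ C) : ‖f‖ ≤ C := by
  rw [← ZeroAtInftyContinuousMap.norm_toBCF_eq_norm, BoundedContinuousFunction.norm_le hC]
  exact h

theorem abs_le' (f : ZeroAtInftyContinuousMap ℕ ℝ) (i : ℕ) : |f i| ≤ ‖f‖ :=
  f.toBCF.norm_coe_le_norm i

theorem finite_big (f : ZeroAtInftyContinuousMap ℕ ℝ) {η : ℝ} (hη : 0 < η) :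
    {i | η ≤ |f i|}.Finite := by
  have h1 := f.zero_at_infty'
  rw [Filter.cocompact_eq_cofinite] at h1
  have h2 := h1.eventually (Metric.ball_mem_nhds (0 : ℝ) hη)
  rw [Filter.eventually_cofinite] at h2
  refine h2.subset fun i hi => ?_
  have hi' : η ≤ |f i| := hi
  intro h3
  have h4 : dist (f i) 0 < η := h3
  rw [Real.dist_eq, sub_zero] at h4
  linarith

end Hump

open Hump

/-- UC-2d: one step of the gliding hump -/
theorem glide (Φ : XS S ≃L[ℝ] ZeroAtInftyContinuousMap ℕ ℝ) (v : XS S) (B : Finset ℕ)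
    (hsep : ∀ i ∈ B, ∀ i' ∈ B, i < i' → i < S.lo i')
    (hbig : B = ∅ ∨ ∃ i ∈ B, (∀ i' ∈ B, S.lo i ≤ S.lo i') ∧ G (S.lo i) ≤ B.card)
    {η : ℝ} (hη : 0 < η) (p : ℕ) {K : ℝ} (hK : ∀ j, ‖Φ (evX S j)‖ ≤ K) :
    ∃ j, p < j ∧ S.ch j = B ∧ ‖Φ (v + evX S j)‖ ≤ max ‖Φ v‖ K + η := by
  have hη2 : 0 < η / 2 := by positivity
  have hI := finite_big (Φ v) hη2
  have hU : (⋃ i ∈ {i | η / 2 ≤ |Φ v i|}, {j | S.ch j = B ∧ η / 2 ≤
      |((evalC i).comp (Φ : XS S →L[ℝ] ZeroAtInftyContinuousMap ℕ ℝ)) (evX S j)|}).Finite :=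
    hI.biUnion fun i _ => functional_small _ B hη2
  obtain ⟨b, hb⟩ := hU.bddAbove
  obtain ⟨j, hj, hjB⟩ := S.rich B hsep hbig (max p b)
  refine ⟨j, lt_of_le_of_lt (le_max_left _ _) hj, hjB, ?_⟩
  have hK0 : 0 ≤ K := (norm_nonneg _).trans (hK 0)
  have hmax0 : 0 ≤ max ‖Φ v‖ K := le_max_of_le_right hK0
  refine norm_le' (by positivity) fun i => ?_
  rw [map_add]
  have h1 : |(Φ v + Φ (evX S j)) i| ≤ |Φ v i| + |Φ (evX S j) i| := abs_add_le _ _
  refine h1.trans ?_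
  by_cases hi : η / 2 ≤ |Φ v i|
  · have h2 : |Φ (evX S j) i| < η / 2 := by
      by_contra hcon
      have h3 : j ∈ ⋃ i ∈ {i | η / 2 ≤ |Φ v i|}, {j | S.ch j = B ∧ η / 2 ≤
          |((evalC i).comp (Φ : XS S →L[ℝ] ZeroAtInftyContinuousMap ℕ ℝ)) (evX S j)|} :=
        Set.mem_biUnion (show i ∈ {i | η / 2 ≤ |Φ v i|} from hi) ⟨hjB, not_lt.mp hcon⟩
      have h4 := hb h3
      have h5 := le_max_right p b
      omega
    have h3 := abs_le' (Φ v) i
    have h4 := le_max_left ‖Φ v‖ K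
    linarith
  · have h2 := (abs_le' (Φ (evX S j)) i).trans (hK j)
    have h4 := le_max_right ‖Φ v‖ K
    linarith [not_le.mp hi]

namespace Hump

theorem exists_bound {X Y : Type} [NormedAddCommGroup X] [NormedSpace ℝ X]
    [NormedAddCommGroup Y] [NormedSpace ℝ Y] (f : X →ₗ[ℝ] Y) (hf : Continuous f) :
    ∃ C, 0 < C ∧ ∀ x, ‖f x‖ ≤ C * ‖x‖ := (⟨f, hf⟩ : X →L[ℝ] Y).bound

/-- a hump of height `r + 1` beyond `p` -/
def Claim (S : Sys) (Φ : XS S ≃L[ℝ] ZeroAtInftyContinuousMap ℕ ℝ) (K : ℝ) (r : ℕ) : Prop :=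
  ∀ (p : ℕ) (v : XS S) (η : ℝ), 0 < η → ∃ (w : XS S) (g : ℕ), p < S.lo g ∧
    ‖Φ (v + w)‖ ≤ max ‖Φ v‖ K + η ∧ (w : Bs) g = r + 1 ∧
    (∀ k, k < S.lo g ∨ g < S.lo k → (w : Bs) k = 0) ∧ ∀ k, g < k → (w : Bs) k = av S k (w : Bs)

theorem claim_zero (Φ : XS S ≃L[ℝ] ZeroAtInftyContinuousMap ℕ ℝ) {K : ℝ}
    (hK : ∀ j, ‖Φ (evX S j)‖ ≤ K) : Claim S Φ K 0 := by
  intro p v η hη
  obtain ⟨j, hj, hjB, hn⟩ := glide Φ v ∅ (by simp) (Or.inl rfl) hη p hK
  have hlo : S.lo j = j := S.lo_leaf hjB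
  refine ⟨evX S j, j, by rw [hlo]; exact hj, hn, ?_, fun k hk => ?_, fun k hk => ?_⟩
  · have h1 : ((evX S j : XS S) : Bs) j = ev S j j := rfl
    rw [h1, ev_self]
    norm_num
  · have h1 : ((evX S j : XS S) : Bs) k = ev S j k := rfl
    rw [h1]
    rw [hlo] at hk
    exact ev_zero hk.symm
  · exact ev_av hk.ne'

/-- a family of `m` successive humps of height `r + 1` -/
def Inner (S : Sys) (Φ : XS S ≃L[ℝ] ZeroAtInftyContinuousMap ℕ ℝ) (K : ℝ) (r : ℕ) (v : XS S)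
    (g1 : ℕ) (η δ : ℝ) (m : ℕ) : Prop :=
  ∃ (w : XS S) (B : Finset ℕ) (q : ℕ), B.card = m ∧ q ∈ B ∧ g1 ∈ B ∧ (∀ i ∈ B, i ≤ q) ∧
    (∀ i ∈ B, ∀ i' ∈ B, i < i' → i < S.lo i') ∧ (∀ i ∈ B, S.lo g1 ≤ S.lo i) ∧
    ‖Φ (v + w)‖ ≤ max ‖Φ v‖ K + η + m * δ ∧ (∀ i ∈ B, (w : Bs) i = r + 1) ∧
    (∀ k, k < S.lo g1 ∨ q < S.lo k → (w : Bs) k = 0) ∧ ∀ k, q < k → (w : Bs) k = av S k (w : Bs)

theorem coe_add (w w' : XS S) : ((w + w' : XS S) : ℕ → ℝ) = fun k => (w : Bs) k + (w' : Bs) k :=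
  rfl

theorem inner_succ {Φ : XS S ≃L[ℝ] ZeroAtInftyContinuousMap ℕ ℝ} {K : ℝ} {r : ℕ}
    (hr : Claim S Φ K r) {v : XS S} {g1 : ℕ} {η δ : ℝ} (hη : 0 < η) (hδ : 0 < δ) {m : ℕ}
    (h : Inner S Φ K r v g1 η δ m) : Inner S Φ K r v g1 η δ (m + 1) := by
  classical
  obtain ⟨w, B, q, hcard, hqB, hg1, hle, hsep, hmin, hn, hval, hzero, hav⟩ := h
  obtain ⟨w', g', hq', hn', hval', hzero', hav'⟩ := hr q (v + w) δ hδ
  have hg'q : q < g' := hq'.trans_le (lo_le g')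
  have hg'B : g' ∉ B := fun h => absurd (hle g' h) (by omega)
  have hg1q : g1 ≤ q := hle g1 hg1
  have hlog1 := lo_le (S := S) g1
  refine ⟨w + w', insert g' B, g', ?_, Finset.mem_insert_self _ _,
    Finset.mem_insert_of_mem hg1, ?_, ?_, ?_, ?_, ?_, ?_, ?_⟩
  · rw [Finset.card_insert_of_notMem hg'B, hcard]
  · intro i hi
    rcases Finset.mem_insert.mp hi with rfl | hi
    · exact le_rfl
    · exact (hle i hi).trans hg'q.le
  · intro i hi i' hi' hii'
    rcases Finset.mem_insert.mp hi with h1 | h1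
    · rcases Finset.mem_insert.mp hi' with h2 | h2
      · omega
      · have := hle i' h2
        omega
    · rcases Finset.mem_insert.mp hi' with h2 | h2
      · rw [h2]
        exact (hle i h1).trans_lt hq'
      · exact hsep i h1 i' h2 hii'
  · intro i hi
    rcases Finset.mem_insert.mp hi with rfl | hi
    · omega
    · exact hmin i hi
  · have hK0 : K ≤ max ‖Φ v‖ K := le_max_right _ _
    rw [← add_assoc]
    refine hn'.trans ?_
    have hmδ : 0 ≤ (m : ℝ) * δ := by positivity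
    have h1 : max ‖Φ (v + w)‖ K ≤ max ‖Φ v‖ K + η + m * δ := max_le hn (by linarith)
    push_cast
    linarith
  · intro i hi
    have hadd : ((w + w' : XS S) : Bs) i = (w : Bs) i + (w' : Bs) i := rfl
    rw [hadd]
    rcases Finset.mem_insert.mp hi with rfl | hi
    · rw [hzero _ (Or.inr hq'), hval', zero_add]
    · rw [hval i hi, hzero' i (Or.inl ((hle i hi).trans_lt hq')), add_zero]
  · intro k hk
    have hadd : ((w + w' : XS S) : Bs) k = (w : Bs) k + (w' : Bs) k := rfl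
    rw [hadd]
    rcases hk with hk | hk
    · rw [hzero k (Or.inl hk), hzero' k (Or.inl (by omega)), add_zero]
    · rw [hzero k (Or.inr (by omega)), hzero' k (Or.inr hk), add_zero]
  · intro k hk
    have hadd : ((w + w' : XS S) : Bs) k = (w : Bs) k + (w' : Bs) k := rfl
    have h1 : av S k ((w + w' : XS S) : Bs) = av S k (w : Bs) + av S k (w' : Bs) := av_add k _ _
    rw [hadd, h1, hav k (by omega), hav' k hk]

theorem claim_succ {Φ : XS S ≃L[ℝ] ZeroAtInftyContinuousMap ℕ ℝ} {K : ℝ}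
    (hK : ∀ j, ‖Φ (evX S j)‖ ≤ K) {r : ℕ} (hr : Claim S Φ K r) : Claim S Φ K (r + 1) := by
  intro p v η hη
  obtain ⟨w1, g1, hp1, hn1, hval1, hzero1, hav1⟩ := hr p v (η / 4) (by positivity)
  set N : ℕ := G (S.lo g1) with hN
  have hNpos : 0 < N := by
    rw [hN]
    unfold G rho
    positivity
  have hN0 : (0 : ℝ) < N := by exact_mod_cast hNpos
  set δ : ℝ := η / (4 * N) with hδ
  have hδ0 : 0 < δ := by positivity
  have hinner : ∀ m : ℕ, Inner S Φ K r v g1 (η / 4) δ (m + 1) := by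
    intro m
    induction m with
    | zero =>
      refine ⟨w1, {g1}, g1, by simp, by simp, by simp, by simp, by simp, by simp, ?_, by simpa using hval1,
        hzero1, hav1⟩
      push_cast
      linarith
    | succ m ih => exact inner_succ hr (by positivity) hδ0 ih
  obtain ⟨w, B, q, hcard, hqB, hg1, hle, hsep, hmin, hn, hval, hzero, hav⟩ := hinner (N - 1)
  have hN1 : N - 1 + 1 = N := Nat.sub_add_cancel hNpos
  rw [hN1] at hcard hn
  obtain ⟨j, hj, hjB, hnj⟩ := glide Φ (v + w) B hsep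
    (Or.inr ⟨g1, hg1, hmin, by rw [hcard]⟩) (η := η / 2) (by positivity) (max p q) hK
  have hjq : q < j := by
    apply S.ch_lt
    rw [hjB]
    exact hqB
  have hne : (S.ch j).Nonempty := by
    rw [hjB]
    exact ⟨g1, hg1⟩
  have hloj : S.lo j = S.lo g1 := by
    apply le_antisymm
    · apply S.lo_ch
      rw [hjB]
      exact hg1
    · obtain ⟨i, hi, hi2⟩ := S.lo_att hne
      rw [hi2]
      rw [hjB] at hi
      exact hmin i hi
  refine ⟨w + evX S j, j, by rw [hloj]; exact hp1, ?_, ?_, ?_, ?_⟩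
  · rw [← add_assoc]
    refine hnj.trans ?_
    have h1 : (N : ℝ) * δ = η / 4 := by
      rw [hδ]
      field_simp
    rw [h1] at hn
    have h2 : max ‖Φ (v + w)‖ K ≤ max ‖Φ v‖ K + η / 4 + η / 4 :=
      max_le hn (by linarith [le_max_right ‖Φ v‖ K])
    linarith
  · have hadd : ((w + evX S j : XS S) : Bs) j = (w : Bs) j + ev S j j := rfl
    rw [hadd, ev_self, hav j hjq]
    have h1 : av S j (w : Bs) = av S j (fun _ => (r : ℝ) + 1) := by
      apply av_congr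
      intro i hi
      rw [hjB] at hi
      exact hval i hi
    rw [h1, av_const hne]
    push_cast
    ring
  · intro k hk
    have hadd : ((w + evX S j : XS S) : Bs) k = (w : Bs) k + ev S j k := rfl
    rw [hadd]
    have hlj := lo_le (S := S) j
    rcases hk with hk | hk
    · rw [hzero k (Or.inl (by omega)), ev_zero (Or.inr (by omega)), add_zero]
    · rw [hzero k (Or.inr (by omega)), ev_zero (Or.inl hk), add_zero]
  · intro k hk
    have hadd : ((w + evX S j : XS S) : Bs) k = (w : Bs) k + ev S j k := rfl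
    have h1 : av S k ((w + evX S j : XS S) : Bs) = av S k (w : Bs) + av S k (ev S j) :=
      av_add k _ _
    rw [hadd, h1, hav k (by omega), ev_av hk.ne']

end Hump

/-- UC-2 -/
theorem not_iso (S : Sys) : ¬ Nonempty (XS S ≃L[ℝ] ZeroAtInftyContinuousMap ℕ ℝ) := by
  rintro ⟨Φ⟩
  obtain ⟨C, hC0, hC⟩ := exists_bound (X := XS S) (Y := ZeroAtInftyContinuousMap ℕ ℝ)
    Φ.toLinearEquiv.toLinearMap Φ.continuous
  obtain ⟨C', hC'0, hC'⟩ := exists_bound (X := ZeroAtInftyContinuousMap ℕ ℝ) (Y := XS S)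
    Φ.symm.toLinearEquiv.toLinearMap Φ.symm.continuous
  have hK : ∀ j, ‖Φ (evX S j)‖ ≤ C := by
    intro j
    have h1 : ‖evX S j‖ ≤ 1 := norm_le_of_bd (x := (evX S j : XS S)) zero_le_one (ev_bd j)
    calc ‖Φ (evX S j)‖ ≤ C * ‖evX S j‖ := hC _
      _ ≤ C * 1 := mul_le_mul_of_nonneg_left h1 hC0.le
      _ = C := mul_one C
  have hclaim : ∀ r, Claim S Φ C r := by
    intro r
    induction r with
    | zero => exact claim_zero Φ hK
    | succ r ih => exact claim_succ hK ih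
  obtain ⟨r, hr⟩ := exists_nat_gt (C' * (C + 1))
  obtain ⟨w, g, _, hn, hval, _, _⟩ := hclaim r 0 0 1 one_pos
  rw [zero_add, map_zero, norm_zero, max_eq_right hC0.le] at hn
  have h1 : ‖w‖ ≤ C' * (C + 1) := by
    have h2 := hC' (Φ w)
    have h3 : Φ.symm.toLinearEquiv.toLinearMap (Φ w) = w := Φ.symm_apply_apply w
    rw [h3] at h2
    exact h2.trans (mul_le_mul_of_nonneg_left hn hC'0.le)
  have h2 : |(w : Bs) g| ≤ ‖w‖ := bd_norm (w : Bs) g
  rw [hval] at h2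
  have h3 : (r : ℝ) + 1 ≤ ‖w‖ := (le_abs_self _).trans h2
  linarith

end Pool.Helper60.UC
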