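import Pool.Agent.Helper60.UC.Map

set_option autoImplicit false
noncomputable section
open Set Filter Topology

namespace Pool.Helper60.UC

variable {S : Sys}

/-- harmonic extensions as elements of `X` -/
def extX (S : Sys) (n : ℕ) (z : Fin n → ℝ) : XS S :=
  ⟨mkB (ext S n z) ‖z‖ (ext_bd n z), mem_XS_of_P (n := n) (by
    show P S n (ext S n z) = ext S n z
    exact ext_P le_rfl z)⟩

lemma extX_coe (n : ℕ) (z : Fin n → ℝ) : ((extX S n z : Bs) : ℕ → ℝ) = ext S n z := rfl

lemma norm_extX (n : ℕ) (z : Fin n → ℝ) : ‖extX S n z‖ = ‖z‖ := by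
  apply le_antisymm
  · exact norm_le_of_bd (x := (extX S n z : Bs)) (norm_nonneg z) (ext_bd n z)
  · rw [pi_norm_le_iff_of_nonneg (norm_nonneg (extX S n z))]
    intro j
    have := XS_bd (extX S n z) j
    rw [extX_coe, ext_lt n z j.2] at this
    exact this

lemma bd_zero : Bd 0 (fun _ : ℕ => (0 : ℝ)) := fun j => by simp

lemma fm_zero (j : ℕ) : fm S 1 0 (fun _ => 0) j = 0 := by
  have h := gg_bd (S := S) (t := 1) bd_zero ⟨zero_le_one, le_rfl⟩ j
  have h' : gg S 1 j (fun _ => (0 : ℝ)) = 0 := abs_nonpos_iff.mp h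
  rw [fm_eq, h']; simp

lemma T_zero_fun (j : ℕ) : T S j (fun _ => (0 : ℝ)) = 0 := by
  apply le_antisymm
  · simpa using T_le_two (S := S) bd_zero j
  · exact T_nonneg bd_zero j

/-- a priori bound for the preimages in the finite sections -/
lemma apriori {n : ℕ} {z : Fin n → ℝ} {C : ℝ} (hC : 0 ≤ C)
    (hz : ∀ j : Fin n, |Fn S 1 n z j| ≤ C) : ‖z‖ ≤ max 100 (2 * C * (1 + 2 ^ 20)) := by
  by_contra hc
  push Not at hc
  have h100 : 100 < ‖z‖ := (le_max_left _ _).trans_lt hc
  have hbig : 2 * C * (1 + 2 ^ 20) < ‖z‖ := (le_max_right _ _).trans_lt hc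
  have hD : 0 < ‖z‖ := by linarith
  have hn : 0 < n := by
    rcases Nat.eq_zero_or_pos n with h | h
    · subst h
      have : z = 0 := Subsingleton.elim _ _
      rw [this, norm_zero] at h100
      linarith
    · exact h
  have hTn : T S (n - 1) (ext S n z) = 0 :=
    T_zero_of_P (ext_bd n z) (ext_P le_rfl z) (by omega)
  have hex : ∃ l, T S l (ext S n z) ≤ ‖z‖ / 100 ∧ T S l (fun _ => (0 : ℝ)) ≤ ‖z‖ / 100 :=
    ⟨n - 1, by rw [hTn]; positivity, by rw [T_zero_fun]; positivity⟩
  classical
  have hfind : Nat.find hex ≤ n - 1 :=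
    Nat.find_min' hex ⟨by rw [hTn]; positivity, by rw [T_zero_fun]; positivity⟩
  have hbd : Bd ‖z‖ (fun i => ext S n z i - (fun _ => (0 : ℝ)) i) := fun i => by
    simpa using ext_bd n z i
  have key := low_aux (S := S) (x := ext S n z) (x' := fun _ => 0) (r := ‖z‖) (r' := 0)
    (D := ‖z‖) (δ := C) (l := Nat.find hex) (ext_bd n z) bd_zero (by simp) hD hbd
    (by
      intro μ hμ hb
      rw [pi_norm_le_iff_of_nonneg hμ]
      intro j
      have := hb j
      simp only [sub_zero] at this
      rw [ext_lt n z j.2] at this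
      exact this) hC (Nat.find_spec hex).1 (Nat.find_spec hex).2
    (by
      intro j hj
      have := Nat.find_min hex hj
      by_contra hc
      push Not at hc
      exact this ⟨(le_max_left _ _).trans hc, (le_max_right _ _).trans hc⟩)
    (by
      intro j hj
      rw [fm_zero, sub_zero]
      exact hz ⟨j, by omega⟩)
  have he : eps (‖z‖ / 100) = 1 / 2 ^ 20 := by
    unfold eps
    rw [min_eq_left (by linarith : (1 : ℝ) ≤ ‖z‖ / 100), Real.one_rpow, mul_one]
  rw [he] at key
  norm_num at key hbig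
  linarith

/-- finitely supported sequences are in the range -/
lemma range_fin (c : C0) (n₀ : ℕ) (hc : ∀ j, n₀ ≤ j → c j = 0) : ∃ x, fX S x = c := by
  obtain ⟨m, hm⟩ := pow_unbounded_of_one_lt (max 100 (2 * ‖c‖ * (1 + 2 ^ 20)))
    (show (1 : ℝ) < 2 by norm_num)
  set n := n₀ + m + 1 with hn
  obtain ⟨z, hz⟩ := Fn_surjective (S := S) n (fun j => c j)
  have hzn : ‖z‖ ≤ 2 ^ m := by
    refine (apriori (S := S) (norm_nonneg c) (fun j => ?_)).trans hm.le
    rw [hz]; exact C0_abs_le c j
  refine ⟨extX S n z, ?_⟩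
  ext j
  rw [fX_apply, norm_extX, extX_coe]
  by_cases hj : j < n
  · have := congrFun hz ⟨j, hj⟩
    exact this
  · rw [hc j (by omega)]
    have hq : q j ‖z‖ = 0 := by
      refine q_zero (norm_nonneg _) (hzn.trans ?_)
      exact pow_le_pow_right₀ (by norm_num) (by omega)
    have h := fm_le (S := S) (ext_bd (S := S) n z) (show 1 ≤ j by omega) hq
    rw [T_zero_of_P (ext_bd n z) (ext_P le_rfl z) (show n ≤ j - 1 + 1 by omega),
      T_zero_of_P (ext_bd n z) (ext_P le_rfl z) (show n ≤ j + 1 by omega)] at h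
    simpa using h

lemma dist_XS (x x' : XS S) : dist x x' = ‖x - x'‖ := by
  rw [Subtype.dist_eq, dist_eq_norm]; rfl

/-- the inverse is uniformly continuous -/
lemma fX_inv_unif {ε : ℝ} (hε : 0 < ε) :
    ∃ δ > 0, ∀ {x x' : XS S}, dist (fX S x) (fX S x') < δ → dist x x' < ε := by
  have he : 0 < eps (ε / 100) := eps_pos (by positivity)
  refine ⟨ε / (2 * (1 + 1 / eps (ε / 100))), by positivity, ?_⟩
  intro x x' h
  by_contra hc
  push Not at hc
  rw [dist_eq_norm] at h
  rw [dist_XS] at hc
  have hne : x ≠ x' := by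
    rintro rfl
    simp at hc
    linarith
  have h1 := fX_low hne
  have h2 : eps (ε / 100) ≤ eps (‖x - x'‖ / 100) := eps_mono (by positivity) (by linarith)
  have h3 : 1 + 1 / eps (‖x - x'‖ / 100) ≤ 1 + 1 / eps (ε / 100) := by
    have := one_div_le_one_div_of_le he h2
    linarith
  have h4 : 0 ≤ 2 * ‖fX S x - fX S x'‖ := by positivity
  have h5 := h1.trans (mul_le_mul_of_nonneg_left h3 h4)
  rw [lt_div_iff₀ (by positivity)] at h
  linarith

lemma fX_emb : IsUniformEmbedding (fX S) := by
  rw [Metric.isUniformEmbedding_iff']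
  constructor
  · intro ε hε
    refine ⟨ε / 4, by positivity, ?_⟩
    intro a b h
    rw [dist_XS] at h
    rw [dist_eq_norm]
    have := fX_lip a b
    linarith
  · intro δ hδ
    obtain ⟨ε, hε, h⟩ := fX_inv_unif (S := S) hδ
    exact ⟨ε, hε, fun {a b} => h⟩

/-- truncation -/
def trunc (c : C0) (n : ℕ) : C0 := mk0 (fun j => if j < n then c j else 0) (by
  apply tendsto_atTop_of_eventually_const (i₀ := n)
  intro j hj
  rw [if_neg (not_lt.mpr hj)])

lemma fX_surj : Function.Surjective (fX S) := by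
  have hclosed : IsClosed (range (fX S)) := (fX_emb (S := S)).isClosedEmbedding.isClosed_range
  intro c
  have : c ∈ closure (range (fX S)) := by
    rw [Metric.mem_closure_iff]
    intro ε hε
    obtain ⟨N, hN⟩ := (Metric.tendsto_atTop.mp (C0_tendsto c)) (ε / 2) (by positivity)
    refine ⟨trunc c N, range_fin (S := S) (trunc c N) N (fun j hj => ?_), ?_⟩
    · show (if j < N then c j else 0) = 0
      rw [if_neg (not_lt.mpr hj)]
    · rw [dist_eq_norm]
      refine lt_of_le_of_lt (C0_norm_le (r := ε / 2) (by positivity) (fun j => ?_)) (by linarith)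
      show |c j - (if j < N then c j else 0)| ≤ ε / 2
      split_ifs with h
      · simp; positivity
      · have := hN j (not_lt.mp h)
        rw [Real.dist_eq, sub_zero] at this
        rw [sub_zero]; exact this.le
  rw [hclosed.closure_eq] at this
  exact this

/-- `X` is uniformly homeomorphic to `c_0`. -/
theorem unif_equiv (S : Sys) : Nonempty (UniformEquiv (XS S) C0) :=
  ⟨(Equiv.ofBijective (fX S) ⟨(fX_emb (S := S)).injective, fX_surj⟩).toUniformEquivOfIsUniformInducing
    (fX_emb (S := S)).isUniformInducing⟩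

end Pool.Helper60.UC
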