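import Pool.Agent.Helper60.UC.Basic

set_option autoImplicit false
noncomputable section
open Set Filter Topology

namespace Pool.Helper60.UC

variable {S : Sys}

lemma bd_norm (x : Bs) : Bd ‖x‖ x := fun j => by
  simpa [Real.norm_eq_abs] using x.norm_coe_le_norm j

lemma norm_le_of_bd {x : Bs} {r : ℝ} (hr : 0 ≤ r) (h : Bd r x) : ‖x‖ ≤ r := by
  rw [BoundedContinuousFunction.norm_le hr]
  intro j; simpa [Real.norm_eq_abs] using h j

/-- a bounded function as an element of `Bs` -/
def mkB (z : ℕ → ℝ) (r : ℝ) (h : Bd r z) : Bs :=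
  BoundedContinuousFunction.ofNormedAddCommGroup z continuous_of_discreteTopology r
    (fun j => by simpa [Real.norm_eq_abs] using h j)

@[simp] lemma mkB_apply (z : ℕ → ℝ) (r : ℝ) (h : Bd r z) (j : ℕ) : mkB z r h j = z j := rfl

/-- The space `X`: bounded functions whose tail norms tend to zero. -/
def XS (S : Sys) : Submodule ℝ Bs where
  carrier := {x | Tendsto (fun j => T S j x) atTop (𝓝 0)}
  zero_mem' := by
    have : (fun j => T S j ((0 : Bs) : ℕ → ℝ)) = fun _ => (0 : ℝ) := by
      funext j
      apply le_antisymm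
      · have h : Bd 0 ((0 : Bs) : ℕ → ℝ) := fun j => by simp
        simpa using T_le_two (S := S) h j
      · exact T_nonneg (bd_norm _) j
    show Tendsto (fun j => T S j ((0 : Bs) : ℕ → ℝ)) atTop (𝓝 0)
    rw [this]; exact tendsto_const_nhds
  add_mem' := by
    intro x y hx hy
    have hx' : Tendsto (fun j => T S j x) atTop (𝓝 0) := hx
    have hy' : Tendsto (fun j => T S j y) atTop (𝓝 0) := hy
    have h := hx'.add hy'
    rw [add_zero] at h
    refine squeeze_zero (fun j => T_nonneg (bd_norm _) j) (fun j => ?_) h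
    exact T_add_le (bd_norm x) (bd_norm y) j
  smul_mem' := by
    intro c x hx
    have hx' : Tendsto (fun j => T S j x) atTop (𝓝 0) := hx
    have h := hx'.const_mul |c|
    rw [mul_zero] at h
    refine squeeze_zero (fun j => T_nonneg (bd_norm _) j) (fun j => ?_) h
    exact T_smul_le (bd_norm x) c j

lemma XS_tendsto (x : XS S) : Tendsto (fun j => T S j (x : Bs)) atTop (𝓝 0) := x.2

lemma mem_XS {x : Bs} : x ∈ XS S ↔ Tendsto (fun j => T S j x) atTop (𝓝 0) := Iff.rfl

lemma bd_sub (x y : Bs) : Bd ‖x - y‖ (fun i => x i - y i) := bd_norm (x - y)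

lemma XS_closed : IsClosed (XS S : Set Bs) := by
  refine isClosed_of_closure_subset (fun x hx => ?_)
  rw [Metric.mem_closure_iff] at hx
  show Tendsto (fun j => T S j x) atTop (𝓝 0)
  rw [Metric.tendsto_atTop]
  intro ε hε
  obtain ⟨y, hy, hxy⟩ := hx (ε / 4) (by positivity)
  have hy' : Tendsto (fun j => T S j y) atTop (𝓝 0) := hy
  obtain ⟨N, hN⟩ := (Metric.tendsto_atTop.mp hy') (ε / 4) (by positivity)
  refine ⟨N, fun n hn => ?_⟩
  have h1 := hN n hn
  rw [Real.dist_eq, sub_zero] at h1 ⊢
  have h2 := T_diff (S := S) (bd_norm x) (bd_norm y) (bd_sub x y) n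
  rw [dist_eq_norm] at hxy
  have h3 : |T S n x| ≤ |T S n y| + |T S n x - T S n y| := by
    have := abs_add_le (T S n y) (T S n x - T S n y)
    simpa using this
  linarith

instance : CompleteSpace (XS S) := (XS_closed (S := S)).completeSpace_coe

/-- bounded functions harmonic beyond `n` belong to `X` -/
lemma mem_XS_of_P {x : Bs} {n : ℕ} (h : P S n x = x) : x ∈ XS S := by
  rw [mem_XS]
  apply tendsto_atTop_of_eventually_const (i₀ := n)
  intro j hj
  apply le_antisymm
  · refine T_le (fun m hm k => ?_)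
    have : P S m x = x := by
      conv_lhs => rw [← h]
      rw [P_P (by omega), h]
    rw [this, sub_self, abs_zero]
  · exact T_nonneg (bd_norm _) j

lemma T_zero_of_P {x : ℕ → ℝ} {r : ℝ} (hx : Bd r x) {n j : ℕ} (h : P S n x = x) (hj : n ≤ j + 1) :
    T S j x = 0 := by
  apply le_antisymm
  · refine T_le (fun m hm k => ?_)
    have : P S m x = x := by
      conv_lhs => rw [← h]
      rw [P_P (by omega), h]
    rw [this, sub_self, abs_zero]
  · exact T_nonneg hx j

end Pool.Helper60.UC
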