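import Pool.Agent.Helper60.UC.Basic
import Pool.Agent.Helper60.UC.Scalar

set_option autoImplicit false
noncomputable section
open Set Filter Topology

namespace Pool.Helper60.UC

variable {S : Sys}

lemma sc_nonneg {x : ℕ → ℝ} {D : ℝ} (hD : 0 < D) (j : ℕ) : 0 < sc S D x j :=
  lt_max_of_lt_right (by positivity)

lemma sc_anti {x : ℕ → ℝ} {r D : ℝ} (hx : Bd r x) {i j : ℕ} (h : i ≤ j) :
    sc S D x j ≤ sc S D x i := max_le_max_right _ (T_anti hx h)

lemma Lp_child {x : ℕ → ℝ} {r D : ℝ} (hx : Bd r x) {i j : ℕ} (hi : i ∈ S.ch j)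
    (h : Lp S D x i) : Lp S D x j := by
  intro hs
  apply h
  refine Small.mono (hs.child hi).2 ?_
  have := sc_anti (S := S) (D := D) hx (S.ch_lt hi).le
  linarith

/-- exceptional siblings have 2-separated scales -/
lemma sc_sep {x : ℕ → ℝ} {r D : ℝ} (hx : Bd r x) {i i' j : ℕ} (hi : i ∈ S.ch j)
    (hi' : i' ∈ S.ch j) (hlt : i < i') (h : Lp S D x i') : 2 * sc S D x i' < sc S D x i := by
  have h1 := small_of_lo (S := S) hx (S.sep hi hi' hlt)
  by_contra hc
  push Not at hc
  apply h
  refine h1.mono ?_
  exact (le_max_left _ _).trans hc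

lemma Lp_lt {x : ℕ → ℝ} {r D : ℝ} (hx : Bd r x) {i : ℕ} (h : Lp S D x i) :
    2 * sc S D x i < r := by
  by_contra hc
  push Not at hc
  exact h (fun k _ => (hx k).trans hc)

lemma Lp_nonempty {x : ℕ → ℝ} {D : ℝ} {j : ℕ} (h : Lp S D x j) : (S.ch j).Nonempty := by
  by_contra hc
  rw [Finset.not_nonempty_iff_eq_empty] at hc
  apply h
  intro k hk
  exfalso
  have : ∃ i, i ∈ S.ch j := by
    rcases Relation.TransGen.head'_iff.mp hk with ⟨i, hi, -⟩
    exact ⟨i, hi⟩
  obtain ⟨i, hi⟩ := this
  rw [hc] at hi
  simp at hi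

/-- 2-separated positive numbers grow -/
lemma chain_sep (E : Finset ℕ) (s : ℕ → ℝ) (a : ℝ) (ha : ∀ i ∈ E, a ≤ s i)
    (hs : ∀ i ∈ E, ∀ i' ∈ E, i < i' → 2 * s i' < s i) :
    ∀ i ∈ E, (∀ i' ∈ E, i ≤ i') → a * 2 ^ (E.card - 1) ≤ s i := by
  induction E using Finset.induction_on_min with
  | empty => intro i hi; simp at hi
  | insert i0 E' h0 ih =>
    intro i hi hmin
    have hi0 : i = i0 := by
      rcases Finset.mem_insert.mp hi with h | h
      · exact h
      · exact absurd (hmin i0 (Finset.mem_insert_self _ _)) (not_le.mpr (h0 i h))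
    subst hi0
    have hnot : i ∉ E' := fun h => lt_irrefl _ (h0 i h)
    rw [Finset.card_insert_of_notMem hnot, Nat.add_sub_cancel]
    rcases E'.eq_empty_or_nonempty with he | hne
    · rw [he]; simpa using ha i (Finset.mem_insert_self _ _)
    · have h1 := ih (fun i hi => ha i (Finset.mem_insert_of_mem hi))
        (fun i hi i' hi' => hs i (Finset.mem_insert_of_mem hi) i' (Finset.mem_insert_of_mem hi'))
        (E'.min' hne) (E'.min'_mem hne) (fun i' hi' => E'.min'_le i' hi')
      have h2 := hs i (Finset.mem_insert_self _ _) (E'.min' hne)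
        (Finset.mem_insert_of_mem (E'.min'_mem hne)) (h0 _ (E'.min'_mem hne))
      have h3 : E'.card = (E'.card - 1) + 1 := by
        have := hne.card_pos; omega
      rw [h3, pow_succ]
      linarith

lemma W_nonneg {x : ℕ → ℝ} {r D : ℝ} (hD : 0 < D) (j : ℕ) : 0 ≤ W S D r x j := by
  unfold W
  split_ifs
  · positivity
  · unfold Wmax; positivity
  · exact le_trans (by positivity) (FF_ge (sc_nonneg hD j).le)
  · exact le_rfl

lemma W_le {x : ℕ → ℝ} {r D : ℝ} (hD : 0 < D) (j : ℕ) : W S D r x j ≤ Wmax := by
  unfold W Wmax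
  split_ifs
  · norm_num
  · norm_num
  · exact (FF_le (sc_nonneg hD j).le).trans (by norm_num)
  · norm_num

open Classical in
/-- the supersolution inequality -/
theorem W_super {x : ℕ → ℝ} {r D t e : ℝ} {j : ℕ} (hx : Bd r x) (hD : 0 < D)
    (ht : t ∈ Icc (0 : ℝ) 1) (he0 : 0 ≤ e) (he1 : e ≤ 1 / 2 ^ 20)
    (he2 : e ≤ eps (201 * sc S D x j)) :
    t * e * (if Lp S D x j then 1 else 0) + (1 - t * q j r) * av S j (W S D r x)
      ≤ W S D r x j := by
  have hind0 : (0 : ℝ) ≤ (if Lp S D x j then 1 else 0) := by split_ifs <;> norm_num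
  have hind1 : (if Lp S D x j then (1 : ℝ) else 0) ≤ 1 := by split_ifs <;> norm_num
  have hte : t * e * (if Lp S D x j then 1 else 0) ≤ t * (1 / 2 ^ 20) := by
    calc t * e * (if Lp S D x j then 1 else 0) ≤ t * e * 1 :=
          mul_le_mul_of_nonneg_left hind1 (mul_nonneg ht.1 he0)
      _ ≤ t * (1 / 2 ^ 20) := by rw [mul_one]; exact mul_le_mul_of_nonneg_left he1 ht.1
  have htq0 : 0 ≤ 1 - t * q j r := by
    have := mul_le_mul ht.2 (q_le_one j r) (q_nonneg j r) zero_le_one
    linarith
  have htq1 : 1 - t * q j r ≤ 1 := by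
    have := mul_nonneg ht.1 (q_nonneg j r)
    linarith
  have hav0 : 0 ≤ av S j (W S D r x) := av_nonneg (fun i _ => W_nonneg hD i)
  have hdrop : (1 - t * q j r) * av S j (W S D r x) ≤ av S j (W S D r x) := by
    calc _ ≤ 1 * av S j (W S D r x) := mul_le_mul_of_nonneg_right htq1 hav0
      _ = _ := one_mul _
  by_cases hd : (rho j : ℝ) ≤ Real.logb 2 r
  · -- direct coding
    have hWj : W S D r x j = 1 / 2 ^ 20 := by unfold W; rw [if_pos hd]
    have hav : av S j (W S D r x) ≤ 1 / 2 ^ 20 := by
      refine av_le (by positivity) (fun i hi => ?_)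
      have : (rho i : ℝ) ≤ Real.logb 2 r :=
        le_trans (by exact_mod_cast rho_mono (S.ch_lt hi).le) hd
      unfold W; rw [if_pos this]
    rw [hWj, q_one hd, mul_one] at *
    have h1 : (1 - t) * av S j (W S D r x) ≤ (1 - t) * (1 / 2 ^ 20) :=
      mul_le_mul_of_nonneg_left hav htq0
    linarith
  by_cases hs : (rho (S.lo j) : ℝ) ≤ Real.logb 2 r
  · -- straddling states
    have hWj : W S D r x j = Wmax := by unfold W; rw [if_neg hd, if_pos hs]
    have hne : (S.ch j).Nonempty := by
      by_contra hc
      rw [Finset.not_nonempty_iff_eq_empty] at hc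
      rw [S.lo_leaf hc] at hs
      exact hd hs
    have hN : (4096 : ℝ) ≤ (S.ch j).card := by
      have h1 := S.big hne
      have h2 := rho_pos (S.lo j)
      have : 4096 ≤ (S.ch j).card := by unfold G at h1; omega
      exact_mod_cast this
    set A := (S.ch j).filter (fun i => ¬ (rho i : ℝ) ≤ Real.logb 2 r ∧
      (rho (S.lo i) : ℝ) ≤ Real.logb 2 r) with hA
    have hA1 : (A.card : ℝ) ≤ 1 := by
      have : A.card ≤ 1 := by
        rw [Finset.card_le_one]
        intro a ha b hb
        by_contra hne'
        rw [hA, Finset.mem_filter] at ha hb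
        rcases lt_or_gt_of_ne hne' with h | h
        · exact ha.2.1 (le_trans (by exact_mod_cast rho_mono (S.sep ha.1 hb.1 h).le) hb.2.2)
        · exact hb.2.1 (le_trans (by exact_mod_cast rho_mono (S.sep hb.1 ha.1 h).le) ha.2.2)
      exact_mod_cast this
    have hsum : ∑ i ∈ S.ch j, W S D r x i ≤
        (S.ch j).card * (1026 / 2 ^ 20) + Wmax := by
      have h1 : ∀ i ∈ S.ch j, W S D r x i ≤ 1026 / 2 ^ 20 +
          (if ¬ (rho i : ℝ) ≤ Real.logb 2 r ∧ (rho (S.lo i) : ℝ) ≤ Real.logb 2 r then Wmax
            else 0) := by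
        intro i _
        unfold W
        by_cases h1 : (rho i : ℝ) ≤ Real.logb 2 r
        · rw [if_pos h1, if_neg (by tauto)]; norm_num
        · by_cases h2 : (rho (S.lo i) : ℝ) ≤ Real.logb 2 r
          · rw [if_neg h1, if_pos h2, if_pos ⟨h1, h2⟩]; linarith [show (0 : ℝ) ≤ 1026 / 2 ^ 20 by positivity]
          · have h3 : ¬ (¬ (rho i : ℝ) ≤ Real.logb 2 r ∧ (rho (S.lo i) : ℝ) ≤ Real.logb 2 r) :=
              fun h => h2 h.2
            rw [if_neg h1, if_neg h2, if_neg h3]
            split_ifs
            · linarith [FF_le (sc_nonneg (S := S) (x := x) hD i).le]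
            · norm_num
      refine (Finset.sum_le_sum h1).trans ?_
      rw [Finset.sum_add_distrib, Finset.sum_const, nsmul_eq_mul, ← Finset.sum_filter,
        Finset.sum_const, nsmul_eq_mul]
      have : (A.card : ℝ) * Wmax ≤ 1 * Wmax :=
        mul_le_mul_of_nonneg_right hA1 (by unfold Wmax; positivity)
      rw [one_mul] at this
      exact add_le_add le_rfl this
    have hav : av S j (W S D r x) ≤ 1026 / 2 ^ 20 + Wmax / 2 := by
      unfold av
      rw [div_le_iff₀ (by linarith)]
      refine hsum.trans ?_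
      have : 0 ≤ Wmax := by unfold Wmax; positivity
      nlinarith
    rw [hWj]
    have ht1 : t * (1 / 2 ^ 20) ≤ 1 / 2 ^ 20 := by
      calc t * (1 / 2 ^ 20) ≤ 1 * (1 / 2 ^ 20) := mul_le_mul_of_nonneg_right ht.2 (by positivity)
        _ = _ := one_mul _
    unfold Wmax at *
    linarith
  · -- good states
    have hch : ∀ i ∈ S.ch j, W S D r x i = if Lp S D x i then FF (sc S D x i) else 0 := by
      intro i hi
      have h1 : ¬ (rho (S.lo i) : ℝ) ≤ Real.logb 2 r := fun h =>
        hs (le_trans (by exact_mod_cast rho_mono (S.lo_ch hi)) h)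
      have h2 : ¬ (rho i : ℝ) ≤ Real.logb 2 r := fun h =>
        h1 (le_trans (by exact_mod_cast rho_mono (lo_le i)) h)
      unfold W; rw [if_neg h2, if_neg h1]
    have hWj : W S D r x j = if Lp S D x j then FF (sc S D x j) else 0 := by
      unfold W; rw [if_neg hd, if_neg hs]
    by_cases hL : Lp S D x j
    swap
    · have hav : av S j (W S D r x) = 0 := by
        refine av_eq_zero (fun i hi => ?_)
        rw [hch i hi, if_neg (fun h => hL (Lp_child hx hi h))]
      rw [hWj, if_neg hL, if_neg hL, hav]
      simp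
    rw [hWj, if_pos hL, if_pos hL, mul_one]
    have hne := Lp_nonempty hL
    set N : ℝ := ((S.ch j).card : ℝ) with hNdef
    have hN : (4096 : ℝ) ≤ N := by
      have h1 := S.big hne
      have h2 := rho_pos (S.lo j)
      have : 4096 ≤ (S.ch j).card := by unfold G at h1; omega
      rw [hNdef]; exact_mod_cast this
    set s := sc S D x j with hsdef
    have hs0 : 0 < s := sc_nonneg hD j
    set E := (S.ch j).filter (fun i => Lp S D x i) with hE
    have hEch : ∀ i ∈ E, i ∈ S.ch j ∧ Lp S D x i := fun i hi => by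
      rw [hE, Finset.mem_filter] at hi; exact hi
    have hsum : ∑ i ∈ S.ch j, W S D r x i = ∑ i ∈ E, FF (sc S D x i) := by
      rw [Finset.sum_congr rfl hch, ← Finset.sum_filter]
    have hsi : ∀ i ∈ E, s ≤ sc S D x i := fun i hi => sc_anti hx (S.ch_lt (hEch i hi).1).le
    have hsep : ∀ i ∈ E, ∀ i' ∈ E, i < i' → 2 * sc S D x i' < sc S D x i :=
      fun i hi i' hi' h => sc_sep hx (hEch i hi).1 (hEch i' hi').1 h (hEch i' hi').2
    have hEN : (E.card : ℝ) ≤ N := by
      rw [hNdef]; exact_mod_cast Finset.card_filter_le _ _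
    have hte' : t * e ≤ e := by
      calc t * e ≤ 1 * e := mul_le_mul_of_nonneg_right ht.2 he0
        _ = e := one_mul _
    have hav_eq : av S j (W S D r x) = (∑ i ∈ E, FF (sc S D x i)) / N := by
      unfold av; rw [hsum]
    by_cases hsmall : s ≤ 1 / 2
    · -- small scales
      have hstep := FF_step hs0.le hsmall
      have hF2 : 0 ≤ FF (2 * s) := le_trans (by positivity) (FF_ge (by linarith))
      have hF1 : 0 ≤ FF s := le_trans (by positivity) (FF_ge hs0.le)
      have hsumle : ∑ i ∈ E, FF (sc S D x i) ≤ FF s + (N - 1) * FF (2 * s) := by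
        rcases E.eq_empty_or_nonempty with he | hEne
        · rw [he, Finset.sum_empty]
          have : 0 ≤ (N - 1) * FF (2 * s) := mul_nonneg (by linarith) hF2
          linarith
        · set m := E.max' hEne with hm
          have hmE : m ∈ E := E.max'_mem hEne
          rw [← Finset.add_sum_erase E _ hmE]
          have h1 : FF (sc S D x m) ≤ FF s := FF_anti hs0.le (hsi m hmE)
          have h2 : ∑ i ∈ E.erase m, FF (sc S D x i) ≤ (E.erase m).card • FF (2 * s) := by
            refine Finset.sum_le_card_nsmul _ _ _ (fun i hi => ?_)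
            have hiE := Finset.mem_of_mem_erase hi
            have hlt : i < m := lt_of_le_of_ne (E.le_max' i hiE) (Finset.ne_of_mem_erase hi)
            have h3 := hsep i hiE m hmE hlt
            have h4 := hsi m hmE
            exact FF_anti (by linarith) (by linarith)
          rw [nsmul_eq_mul] at h2
          have h3 : ((E.erase m).card : ℝ) ≤ N - 1 := by
            rw [Finset.card_erase_of_mem hmE]
            have hpos := hEne.card_pos
            have : ((E.card - 1 : ℕ) : ℝ) = (E.card : ℝ) - 1 := by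
              push_cast [Nat.cast_sub hpos]; ring
            rw [this]; linarith
          have h4 := mul_le_mul_of_nonneg_right h3 hF2
          linarith
      have hav : av S j (W S D r x) ≤ FF (2 * s) + (FF s - FF (2 * s)) / 2 := by
        rw [hav_eq, div_le_iff₀ (by linarith)]
        refine hsumle.trans ?_
        have h0 : 0 ≤ FF s - FF (2 * s) := by
          have := eps_nonneg (show 0 ≤ 201 * s by linarith)
          linarith
        nlinarith
      linarith
    · -- large scales: few exceptional children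
      push Not at hsmall
      have hcard : 4 * (E.card : ℝ) ≤ N := by
        rcases E.eq_empty_or_nonempty with he | hEne
        · rw [he, Finset.card_empty]; simp; linarith
        · have h1 := chain_sep E (sc S D x) (1 / 2) (fun i hi => hsmall.le.trans (hsi i hi)) hsep
            (E.min' hEne) (E.min'_mem hEne) (fun i' hi' => E.min'_le i' hi')
          have h2 := Lp_lt hx (hEch _ (E.min'_mem hEne)).2
          have h3 : (2 : ℝ) ^ (E.card - 1) < r := by linarith
          have hr : 0 < r := lt_trans (by positivity) h3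
          have h4 : ((E.card - 1 : ℕ) : ℝ) < Real.logb 2 r := by
            rw [Real.lt_logb_iff_rpow_lt (by norm_num) hr, Real.rpow_natCast]
            exact h3
          have h5 : ((E.card - 1 : ℕ) : ℝ) < rho (S.lo j) := h4.trans (not_le.mp hs)
          have h6 : E.card - 1 < rho (S.lo j) := by exact_mod_cast h5
          have h7 := S.big hne
          have h8 : 4 * E.card ≤ (S.ch j).card := by
            unfold G at h7; omega
          rw [hNdef]; exact_mod_cast h8
      have hsumle : ∑ i ∈ E, FF (sc S D x i) ≤ E.card * (1026 / 2 ^ 20) := by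
        refine (Finset.sum_le_card_nsmul _ _ (1026 / 2 ^ 20)
          (fun i _ => FF_le (sc_nonneg hD i).le)).trans ?_
        rw [nsmul_eq_mul]
      have hav : av S j (W S D r x) ≤ (1026 / 2 ^ 20) / 4 := by
        rw [hav_eq, div_le_iff₀ (by linarith)]
        refine hsumle.trans ?_
        nlinarith
      have := FF_ge hs0.le
      linarith

end Pool.Helper60.UC
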